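import Mathlib

/-!
Averages of a continuous map over boxes, and linearization of Lipschitz maps.
-/

set_option autoImplicit false
set_option linter.unusedSectionVars false

open Set Filter Topology MeasureTheory

namespace Pool.Agent.H548R3.Lin

variable {X : Type*} [NormedAddCommGroup X] [NormedSpace ℝ X]
  {Y : Type*} [NormedAddCommGroup Y] [NormedSpace ℝ Y] [CompleteSpace Y]

/-- The average of `f` over the segment `[z, z + v]`. -/
noncomputable def M (v : X) (f : X → Y) (z : X) : Y := ∫ t in (0 : ℝ)..1, f (z + t • v)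

lemma continuous_M {f : X → Y} (hf : Continuous f) (v : X) : Continuous (M v f) := by
  unfold M
  apply intervalIntegral.continuous_parametric_intervalIntegral_of_continuous'
  fun_prop

lemma intable {f : X → Y} (hf : Continuous f) (z v : X) (a b : ℝ) :
    IntervalIntegrable (fun t : ℝ => f (z + t • v)) volume a b :=
  Continuous.intervalIntegrable (by fun_prop) a b

lemma M_zero (f : X → Y) : M (0 : X) f = f := by
  funext z
  simp [M]

lemma M_sub_le {f : X → Y} (hf : Continuous f) (v z z' : X) {B : ℝ}
    (hB : ∀ t ∈ Icc (0 : ℝ) 1, ‖f (z + t • v) - f (z' + t • v)‖ ≤ B) :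
    ‖M v f z - M v f z'‖ ≤ B := by
  unfold M
  rw [← intervalIntegral.integral_sub (intable hf z v 0 1) (intable hf z' v 0 1)]
  have h1 := intervalIntegral.norm_integral_le_of_norm_le_const (a := (0 : ℝ)) (b := 1) (C := B)
    (f := fun t => f (z + t • v) - f (z' + t • v)) (fun t ht => hB t (by
      rw [uIoc_of_le zero_le_one] at ht
      exact ⟨ht.1.le, ht.2⟩))
  simpa using h1

lemma M_sub_self_le {f : X → Y} (hf : Continuous f) (v z : X) {B : ℝ}
    (hB : ∀ t ∈ Icc (0 : ℝ) 1, ‖f (z + t • v) - f z‖ ≤ B) :
    ‖M v f z - f z‖ ≤ B := by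
  have h0 : f z = ∫ _ in (0 : ℝ)..1, f z := by simp
  unfold M
  rw [h0, ← intervalIntegral.integral_sub (intable hf z v 0 1) (by simp)]
  have h1 := intervalIntegral.norm_integral_le_of_norm_le_const (a := (0 : ℝ)) (b := 1) (C := B)
    (f := fun t => f (z + t • v) - f z) (fun t ht => hB t (by
      rw [uIoc_of_le zero_le_one] at ht
      exact ⟨ht.1.le, ht.2⟩))
  simpa using h1

/-- the key identity along one direction -/
lemma M_shift {f : X → Y} (hf : Continuous f) (v z : X) (s : ℝ) :
    M v f (z + s • v) - M v f z =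
      ∫ σ in (0 : ℝ)..s, (f (z + σ • v + v) - f (z + σ • v)) := by
  unfold M
  have h1 : ∫ t in (0 : ℝ)..1, f (z + s • v + t • v) = ∫ τ in s..(s + 1), f (z + τ • v) := by
    have := intervalIntegral.integral_comp_add_left (a := (0 : ℝ)) (b := 1)
      (fun τ : ℝ => f (z + τ • v)) s
    rw [add_zero] at this
    rw [← this]
    refine intervalIntegral.integral_congr fun t _ => ?_
    rw [add_smul, add_assoc]
  have h2 : ∫ σ in (0 : ℝ)..s, f (z + σ • v + v) = ∫ τ in (1 : ℝ)..(s + 1), f (z + τ • v) := by
    have := intervalIntegral.integral_comp_add_right (a := (0 : ℝ)) (b := s)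
      (fun τ : ℝ => f (z + τ • v)) 1
    rw [zero_add] at this
    rw [← this]
    refine intervalIntegral.integral_congr fun t _ => ?_
    rw [add_smul, one_smul, add_assoc]
  have hc : Continuous fun σ : ℝ => f (z + σ • v + v) := by fun_prop
  rw [intervalIntegral.integral_sub (hc.intervalIntegrable _ _) (intable hf z v 0 s), h1, h2]
  have h3 := intervalIntegral.integral_add_adjacent_intervals (intable hf z v 0 s)
    (intable hf z v s (s + 1))
  have h4 := intervalIntegral.integral_add_adjacent_intervals (intable hf z v 0 1)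
    (intable hf z v 1 (s + 1))
  rw [← h4] at h3
  rw [sub_eq_sub_iff_add_eq_add, add_comm, h3, add_comm]

/-- Fubini -/
lemma M_comm {f : X → Y} (hf : Continuous f) (v w : X) :
    M v (M w f) = M w (M v f) := by
  funext z
  unfold M
  have hc : Continuous (Function.uncurry fun t s : ℝ => f (z + t • v + s • w)) := by
    unfold Function.uncurry
    fun_prop
  have h := MeasureTheory.intervalIntegral_intervalIntegral_swap (a := 0) (b := 1) (c := 0) (d := 1)
    (F := fun t s : ℝ => f (z + t • v + s • w)) (by
      have hK : IsCompact (uIcc (0 : ℝ) 1 ×ˢ uIcc (0 : ℝ) 1) := isCompact_uIcc.prod isCompact_uIcc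
      refine IntegrableOn.mono_set (hc.continuousOn.integrableOn_compact hK) ?_
      exact prod_mono uIoc_subset_uIcc uIoc_subset_uIcc)
  rw [h]
  refine intervalIntegral.integral_congr fun s _ => ?_
  refine intervalIntegral.integral_congr fun t _ => ?_
  rw [add_right_comm]

/-- Iterated averages along `w 0, ..., w (m - 1)`. -/
noncomputable def G (w : ℕ → X) (f : X → Y) : ℕ → X → Y
  | 0 => f
  | m + 1 => M (w m) (G w f m)

lemma continuous_G {f : X → Y} (hf : Continuous f) (w : ℕ → X) (m : ℕ) :
    Continuous (G w f m) := by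
  induction m with
  | zero => exact hf
  | succ m ih => exact continuous_M ih _

lemma G_congr (w w' : ℕ → X) (f : X → Y) (m : ℕ) (h : ∀ i < m, w i = w' i) :
    G w f m = G w' f m := by
  induction m with
  | zero => rfl
  | succ m ih =>
    show M (w m) (G w f m) = M (w' m) (G w' f m)
    rw [ih fun i hi => h i (by omega), h m (by omega)]

/-- one averaging can be moved outside -/
lemma G_extract {f : X → Y} (hf : Continuous f) (v : ℕ → X) (j m : ℕ) (hj : j < m) :
    G v f m = M (v j) (G (Function.update v j 0) f m) := by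
  induction m with
  | zero => omega
  | succ m ih =>
    rcases Nat.lt_succ_iff_lt_or_eq.1 hj with h | rfl
    · show M (v m) (G v f m) = M (v j) (M (Function.update v j 0 m) (G (Function.update v j 0) f m))
      rw [ih h, Function.update_of_ne (by omega), M_comm (continuous_G hf _ _)]
    · show M (v j) (G v f j) = M (v j) (M (Function.update v j 0 j) (G (Function.update v j 0) f j))
      rw [Function.update_self, M_zero]
      congr 1
      refine G_congr _ _ _ _ fun i hi => ?_
      rw [Function.update_of_ne (by omega)]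

/-- increments of averages -/
lemma G_sub_le {f : X → Y} (hf : Continuous f) (w : ℕ → X) (y : X) {B : ℝ} (m : ℕ) (z : X)
    (hB : ∀ t : ℕ → ℝ, (∀ i, t i ∈ Icc (0 : ℝ) 1) →
      ‖f (z + ∑ i ∈ Finset.range m, t i • w i + y) - f (z + ∑ i ∈ Finset.range m, t i • w i)‖ ≤ B) :
    ‖G w f m (z + y) - G w f m z‖ ≤ B := by
  induction m generalizing z with
  | zero =>
    show ‖f (z + y) - f z‖ ≤ B
    simpa using hB (fun _ => 0) (fun _ => by simp)
  | succ m ih =>
    refine M_sub_le (continuous_G hf _ _) _ _ _ fun s hs => ?_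
    have h1 : z + y + s • w m = z + s • w m + y := by abel
    rw [h1]
    refine ih _ fun t ht => ?_
    have h2 := hB (Function.update t m s) (fun i => by
      rcases eq_or_ne i m with rfl | h
      · rwa [Function.update_self]
      · rw [Function.update_of_ne h]; exact ht i)
    rw [Finset.sum_range_succ, Function.update_self] at h2
    have h3 : ∑ i ∈ Finset.range m, Function.update t m s i • w i =
        ∑ i ∈ Finset.range m, t i • w i := by
      refine Finset.sum_congr rfl fun i hi => ?_
      rw [Function.update_of_ne (Finset.mem_range.1 hi).ne]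
    rw [h3] at h2
    have h4 : z + s • w m + ∑ i ∈ Finset.range m, t i • w i =
        z + (∑ i ∈ Finset.range m, t i • w i + s • w m) := by abel
    rw [h4]
    exact h2

lemma G_succ_sub_le {f : X → Y} {K : ℝ} (hK : 0 ≤ K) (hf : ∀ x y, ‖f x - f y‖ ≤ K * ‖x - y‖)
    (hc : Continuous f) (w : ℕ → X) (m : ℕ) (z : X) :
    ‖G w f (m + 1) z - G w f m z‖ ≤ K * ‖w m‖ := by
  refine M_sub_self_le (continuous_G hc _ _) _ _ fun t ht => ?_
  refine G_sub_le hc w _ m z fun s _ => ?_
  refine (hf _ _).trans ?_
  rw [add_sub_cancel_left, norm_smul, Real.norm_of_nonneg ht.1]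
  have : t * ‖w m‖ ≤ 1 * ‖w m‖ := mul_le_mul_of_nonneg_right ht.2 (norm_nonneg _)
  rw [one_mul] at this
  exact mul_le_mul_of_nonneg_left this hK

/-- The averaged difference of `f` in the direction `v j`. -/
noncomputable def D (v : ℕ → X) (f : X → Y) (j m : ℕ) : Y :=
  G (Function.update v j 0) f m (v j) - G (Function.update v j 0) f m 0

/-- one direction -/
lemma G_dir {f : X → Y} (hf : Continuous f) (v : ℕ → X) (j m : ℕ) (hj : j < m) (z : X) (s : ℝ)
    {B : ℝ} (hB : ∀ t : ℕ → ℝ, (∀ i, t i ∈ Icc (0 : ℝ) 1) → ∀ σ : ℝ, |σ| ≤ |s| →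
      ‖f (∑ i ∈ Finset.range m, t i • v i + (z + σ • v j)) - f (∑ i ∈ Finset.range m, t i • v i)‖ ≤ B) :
    ‖G v f m (z + s • v j) - G v f m z - s • D v f j m‖ ≤ 2 * B * |s| := by
  set u := Function.update v j 0 with hu
  have hc := continuous_G hf u m
  rw [G_extract hf v j m hj, M_shift hc]
  have h0 : s • D v f j m = ∫ _ in (0 : ℝ)..s, (G u f m (v j) - G u f m 0) := by
    rw [intervalIntegral.integral_const, sub_zero]
    rfl
  rw [h0]
  have hi : IntervalIntegrable (fun σ : ℝ => G u f m (z + σ • v j + v j) - G u f m (z + σ • v j))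
      volume 0 s := Continuous.intervalIntegrable (by fun_prop) _ _
  rw [← intervalIntegral.integral_sub hi (by simp)]
  have key : ∀ σ ∈ uIoc (0 : ℝ) s, ‖G u f m (z + σ • v j + v j) - G u f m (z + σ • v j) -
      (G u f m (v j) - G u f m 0)‖ ≤ 2 * B := by
    intro σ hσ
    have hσ' : |σ| ≤ |s| := by
      rcases le_total 0 s with h | h
      · rw [uIoc_of_le h] at hσ
        rw [abs_of_nonneg hσ.1.le, abs_of_nonneg h]
        exact hσ.2
      · rw [uIoc_of_ge h] at hσ
        rw [abs_of_nonpos hσ.2, abs_of_nonpos h]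
        linarith [hσ.1]
    have hsum : ∀ (t : ℕ → ℝ) (c : ℝ), ∑ i ∈ Finset.range m, t i • u i + c • v j =
        ∑ i ∈ Finset.range m, Function.update t j c i • v i := by
      intro t c
      have hjm : j ∈ Finset.range m := Finset.mem_range.2 hj
      rw [← Finset.add_sum_erase _ _ hjm, ← Finset.add_sum_erase _ (fun i => Function.update t j c i • v i) hjm]
      rw [hu, Function.update_self, smul_zero, zero_add, Function.update_self, add_comm]
      congr 1
      refine Finset.sum_congr rfl fun i hi => ?_
      have hne : i ≠ j := Finset.ne_of_mem_erase hi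
      rw [Function.update_of_ne hne, Function.update_of_ne hne]
    have hmem : ∀ (t : ℕ → ℝ) (c : ℝ), (∀ i, t i ∈ Icc (0 : ℝ) 1) → c ∈ Icc (0 : ℝ) 1 →
        ∀ i, Function.update t j c i ∈ Icc (0 : ℝ) 1 := by
      intro t c ht hc' i
      rcases eq_or_ne i j with rfl | h
      · rwa [Function.update_self]
      · rw [Function.update_of_ne h]; exact ht i
    have h1 : ‖G u f m (v j + (z + σ • v j)) - G u f m (v j)‖ ≤ B := by
      refine G_sub_le hf u _ m _ fun t ht => ?_
      have h2 : v j + ∑ i ∈ Finset.range m, t i • u i =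
          ∑ i ∈ Finset.range m, Function.update t j 1 i • v i := by
        rw [← hsum, one_smul, add_comm]
      rw [h2]
      exact hB _ (hmem t 1 ht (by simp)) σ hσ'
    have h3 : ‖G u f m (0 + (z + σ • v j)) - G u f m 0‖ ≤ B := by
      refine G_sub_le hf u _ m _ fun t ht => ?_
      have h2 : (0 : X) + ∑ i ∈ Finset.range m, t i • u i =
          ∑ i ∈ Finset.range m, Function.update t j 0 i • v i := by
        rw [← hsum, zero_smul, add_zero, zero_add]
      rw [h2]
      exact hB _ (hmem t 0 ht (by simp)) σ hσ'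
    rw [zero_add] at h3
    have h4 : G u f m (z + σ • v j + v j) - G u f m (z + σ • v j) - (G u f m (v j) - G u f m 0) =
        (G u f m (v j + (z + σ • v j)) - G u f m (v j)) - (G u f m (z + σ • v j) - G u f m 0) := by
      rw [add_comm (v j)]; abel
    rw [h4]
    refine (norm_sub_le _ _).trans ?_
    linarith
  have h5 := intervalIntegral.norm_integral_le_of_norm_le_const key
  rwa [sub_zero] at h5

/-- The main finite estimate. -/
lemma norm_sum_D_le {f : X → Y} (hf : Continuous f) (v : ℕ → X) (n m : ℕ) (hnm : n ≤ m)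
    (a : ℕ → ℝ) {h B B' : ℝ} (hh : 0 < h) 
    (h1 : ∀ t : ℕ → ℝ, (∀ i, t i ∈ Icc (0 : ℝ) 1) →
      ‖f (∑ i ∈ Finset.range m, t i • v i + h • ∑ i ∈ Finset.range n, a i • v i) -
        f (∑ i ∈ Finset.range m, t i • v i)‖ ≤ h * B')
    (h2 : ∀ t : ℕ → ℝ, (∀ i, t i ∈ Icc (0 : ℝ) 1) → ∀ b : ℕ → ℝ, (∀ i, |b i| ≤ h * |a i|) →
      ‖f (∑ i ∈ Finset.range m, t i • v i + ∑ i ∈ Finset.range n, b i • v i) -
        f (∑ i ∈ Finset.range m, t i • v i)‖ ≤ B) :
    ‖∑ j ∈ Finset.range n, a j • D v f j m‖ ≤ B' + 2 * B * ∑ j ∈ Finset.range n, |a j| := by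
  -- telescoping
  have key : ∀ k ≤ n, ‖G v f m (h • ∑ i ∈ Finset.range k, a i • v i) - G v f m 0 -
      h • ∑ j ∈ Finset.range k, a j • D v f j m‖ ≤ 2 * B * (h * ∑ j ∈ Finset.range k, |a j|) := by
    intro k hk
    induction k with
    | zero => simp
    | succ k ih =>
      have ih' := ih (by omega)
      have h3 : ‖G v f m (h • ∑ i ∈ Finset.range k, a i • v i + (h * a k) • v k) -
          G v f m (h • ∑ i ∈ Finset.range k, a i • v i) - (h * a k) • D v f k m‖ ≤
          2 * B * |h * a k| := by
        refine G_dir hf v k m (by omega) _ _ fun t ht σ hσ => ?_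
        have h4 : h • ∑ i ∈ Finset.range k, a i • v i + σ • v k =
            ∑ i ∈ Finset.range n, (if i < k then h * a i else if i = k then σ else 0) • v i := by
          have hsub : Finset.range (k + 1) ⊆ Finset.range n := Finset.range_mono (by omega)
          rw [← Finset.sum_subset hsub, Finset.sum_range_succ, if_neg (lt_irrefl k), if_pos rfl,
            Finset.smul_sum]
          · congr 1
            refine Finset.sum_congr rfl fun i hi => ?_
            rw [if_pos (Finset.mem_range.1 hi), smul_smul]
          · intro i _ hi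
            have : ¬ i < k + 1 := fun h => hi (Finset.mem_range.2 h)
            rw [if_neg (by omega), if_neg (by omega), zero_smul]
        rw [h4]
        refine h2 t ht _ fun i => ?_
        split_ifs with h5 h6
        · rw [abs_mul, abs_of_pos hh]
        · subst h6
          rw [abs_mul, abs_of_pos hh] at hσ
          exact hσ
        · rw [abs_zero]
          positivity
      rw [Finset.sum_range_succ, Finset.sum_range_succ, Finset.sum_range_succ, smul_add, smul_add,
        smul_smul, smul_smul]
      have h7 : G v f m (h • ∑ i ∈ Finset.range k, a i • v i + (h * a k) • v k) - G v f m 0 -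
          (h • ∑ j ∈ Finset.range k, a j • D v f j m + (h * a k) • D v f k m) =
          (G v f m (h • ∑ i ∈ Finset.range k, a i • v i + (h * a k) • v k) -
            G v f m (h • ∑ i ∈ Finset.range k, a i • v i) - (h * a k) • D v f k m) +
          (G v f m (h • ∑ i ∈ Finset.range k, a i • v i) - G v f m 0 -
            h • ∑ j ∈ Finset.range k, a j • D v f j m) := by abel
      rw [h7]
      refine (norm_add_le _ _).trans ?_
      rw [abs_mul, abs_of_pos hh] at h3
      nlinarith
  have h3 := key n le_rfl
  have h4 : ‖G v f m (0 + h • ∑ i ∈ Finset.range n, a i • v i) - G v f m 0‖ ≤ h * B' := by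
    refine G_sub_le hf v _ m 0 fun t ht => ?_
    rw [zero_add]
    exact h1 t ht
  rw [zero_add] at h4
  have h5 : ‖h • ∑ j ∈ Finset.range n, a j • D v f j m‖ ≤
      h * (B' + 2 * B * ∑ j ∈ Finset.range n, |a j|) := by
    have h6 : h • ∑ j ∈ Finset.range n, a j • D v f j m =
        (G v f m (h • ∑ i ∈ Finset.range n, a i • v i) - G v f m 0) -
        (G v f m (h • ∑ i ∈ Finset.range n, a i • v i) - G v f m 0 -
          h • ∑ j ∈ Finset.range n, a j • D v f j m) := by abel
    rw [h6]
    refine (norm_sub_le _ _).trans ?_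
    nlinarith
  rw [norm_smul, Real.norm_of_nonneg hh.le] at h5
  exact le_of_mul_le_mul_left h5 hh

end Pool.Agent.H548R3.Lin
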