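import Pool.Agent.H548R3.LinA

/-!
Linearization of a Lipschitz map with finite dimensional range.
-/

set_option autoImplicit false
set_option linter.unusedSectionVars false

open Set Filter Topology MeasureTheory

namespace Pool.Agent.H548R3.Lin

variable {X : Type*} [NormedAddCommGroup X] [NormedSpace ℝ X]
  {Y : Type*} [NormedAddCommGroup Y] [NormedSpace ℝ Y] [CompleteSpace Y]
  {Y' : Type*} [NormedAddCommGroup Y'] [NormedSpace ℝ Y'] [CompleteSpace Y']

lemma M_comp (L : Y →L[ℝ] Y') {f : X → Y} (hf : Continuous f) (v z : X) :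
    M v (fun x => L (f x)) z = L (M v f z) :=
  ContinuousLinearMap.intervalIntegral_comp_comm L (intable hf z v 0 1)

lemma G_comp (L : Y →L[ℝ] Y') {f : X → Y} (hf : Continuous f) (w : ℕ → X) (m : ℕ) :
    G w (fun x => L (f x)) m = fun z => L (G w f m z) := by
  induction m with
  | zero => rfl
  | succ m ih =>
    funext z
    show M (w m) (G w (fun x => L (f x)) m) z = L (M (w m) (G w f m) z)
    rw [ih]
    exact M_comp L (continuous_G hf _ _) _ _

lemma D_comp (L : Y →L[ℝ] Y') {f : X → Y} (hf : Continuous f) (v : ℕ → X) (j m : ℕ) :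
    D v (fun x => L (f x)) j m = L (D v f j m) := by
  unfold D
  rw [G_comp L hf, map_sub]

lemma M_sub {f g : X → Y} (hf : Continuous f) (hg : Continuous g) (v z : X) :
    M v (fun x => f x - g x) z = M v f z - M v g z :=
  intervalIntegral.integral_sub (intable hf z v 0 1) (intable hg z v 0 1)

lemma G_sub {f g : X → Y} (hf : Continuous f) (hg : Continuous g) (w : ℕ → X) (m : ℕ) :
    G w (fun x => f x - g x) m = fun z => G w f m z - G w g m z := by
  induction m with
  | zero => rfl
  | succ m ih =>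
    funext z
    show M (w m) (G w (fun x => f x - g x) m) z = M (w m) (G w f m) z - M (w m) (G w g m) z
    rw [ih]
    exact M_sub (continuous_G hf _ _) (continuous_G hg _ _) _ _

lemma D_sub {f g : X → Y} (hf : Continuous f) (hg : Continuous g) (v : ℕ → X) (j m : ℕ) :
    D v (fun x => f x - g x) j m = D v f j m - D v g j m := by
  unfold D
  rw [G_sub hf hg]
  exact sub_sub_sub_comm _ _ _ _

lemma G_id [CompleteSpace X] (w : ℕ → X) (m : ℕ) (z z' : X) :
    G w (fun x : X => x) m z - G w (fun x : X => x) m z' = z - z' := by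
  induction m generalizing z z' with
  | zero => rfl
  | succ m ih =>
    have hc : Continuous (G w (fun x : X => x) m) := continuous_G continuous_id w m
    show M (w m) (G w (fun x : X => x) m) z - M (w m) (G w (fun x : X => x) m) z' = z - z'
    unfold M
    rw [← intervalIntegral.integral_sub (intable hc z _ 0 1) (intable hc z' _ 0 1)]
    have h1 : (fun t : ℝ => G w (fun x : X => x) m (z + t • w m) -
        G w (fun x : X => x) m (z' + t • w m)) = fun _ => z - z' := by
      funext t
      rw [ih]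
      abel
    rw [h1]
    simp

lemma D_id [CompleteSpace X] (v : ℕ → X) (j m : ℕ) : D v (fun x : X => x) j m = v j := by
  unfold D
  rw [G_id, sub_zero]

lemma D_succ_dist {f : X → Y} {K : ℝ} (hK : 0 ≤ K) (hf : ∀ x y, ‖f x - f y‖ ≤ K * ‖x - y‖)
    (hc : Continuous f) (v : ℕ → X) (j m : ℕ) :
    dist (D v f j m) (D v f j (m + 1)) ≤ 2 * K * ‖v m‖ := by
  have h0 : ‖Function.update v j 0 m‖ ≤ ‖v m‖ := by
    rcases eq_or_ne m j with rfl | h
    · rw [Function.update_self, norm_zero]; exact norm_nonneg _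
    · rw [Function.update_of_ne h]
  have h1 := G_succ_sub_le hK hf hc (Function.update v j 0) m (v j)
  have h2 := G_succ_sub_le hK hf hc (Function.update v j 0) m 0
  have h3 : K * ‖Function.update v j 0 m‖ ≤ K * ‖v m‖ := mul_le_mul_of_nonneg_left h0 hK
  rw [dist_comm, dist_eq_norm]
  unfold D
  have h4 : G (Function.update v j 0) f (m + 1) (v j) - G (Function.update v j 0) f (m + 1) 0 -
      (G (Function.update v j 0) f m (v j) - G (Function.update v j 0) f m 0) =
      (G (Function.update v j 0) f (m + 1) (v j) - G (Function.update v j 0) f m (v j)) -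
      (G (Function.update v j 0) f (m + 1) 0 - G (Function.update v j 0) f m 0) := by abel
  rw [h4]
  refine (norm_sub_le _ _).trans ?_
  linarith

lemma exists_lim {f : X → Y} {K : ℝ} (hK : 0 ≤ K) (hf : ∀ x y, ‖f x - f y‖ ≤ K * ‖x - y‖)
    (hc : Continuous f) (v : ℕ → X) (hv : Summable fun i => ‖v i‖) (j : ℕ) :
    ∃ l, Tendsto (fun m => D v f j m) atTop (𝓝 l) := by
  apply cauchySeq_tendsto_of_complete
  exact cauchySeq_of_dist_le_of_summable _ (fun m => D_succ_dist hK hf hc v j m) (hv.mul_left _)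

lemma continuous_of_lip {f : X → Y} {K : ℝ} (hf : ∀ x y, ‖f x - f y‖ ≤ K * ‖x - y‖) :
    Continuous f := by
  have h : LipschitzWith K.toNNReal f := by
    refine LipschitzWith.of_dist_le_mul fun x y => ?_
    rw [dist_eq_norm, dist_eq_norm]
    refine (hf x y).trans ?_
    exact mul_le_mul_of_nonneg_right (Real.le_coe_toNNReal K) (norm_nonneg _)
  exact h.continuous

/-- the bound for the linearization -/
lemma norm_sum_D_le_lip {f : X → Y} {K : ℝ} (hK : 0 ≤ K) (hf : ∀ x y, ‖f x - f y‖ ≤ K * ‖x - y‖)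
    (v : ℕ → X) (n m : ℕ) (hnm : n ≤ m) (a : ℕ → ℝ) :
    ‖∑ j ∈ Finset.range n, a j • D v f j m‖ ≤ K * ‖∑ j ∈ Finset.range n, a j • v j‖ := by
  have hc := continuous_of_lip hf
  set S := ∑ j ∈ Finset.range n, |a j| * ‖v j‖ with hS
  set A := ∑ j ∈ Finset.range n, |a j| with hA
  have hS0 : 0 ≤ S := Finset.sum_nonneg fun j _ => mul_nonneg (abs_nonneg _) (norm_nonneg _)
  have hA0 : 0 ≤ A := Finset.sum_nonneg fun j _ => abs_nonneg _
  have key : ∀ h : ℝ, 0 < h → ‖∑ j ∈ Finset.range n, a j • D v f j m‖ ≤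
      K * ‖∑ j ∈ Finset.range n, a j • v j‖ + 2 * (K * (h * S)) * A := by
    intro h hh
    refine norm_sum_D_le hc v n m hnm a hh (fun t _ => ?_) (fun t _ b hb => ?_)
    · refine (hf _ _).trans (le_of_eq ?_)
      rw [add_sub_cancel_left, norm_smul, Real.norm_of_nonneg hh.le]
      ring
    · refine (hf _ _).trans ?_
      rw [add_sub_cancel_left]
      refine mul_le_mul_of_nonneg_left ?_ hK
      refine (norm_sum_le _ _).trans ?_
      rw [hS, Finset.mul_sum]
      refine Finset.sum_le_sum fun i _ => ?_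
      rw [norm_smul, Real.norm_eq_abs, ← mul_assoc]
      exact mul_le_mul_of_nonneg_right (hb i) (norm_nonneg _)
  have hlim : Tendsto (fun h : ℝ => K * ‖∑ j ∈ Finset.range n, a j • v j‖ + 2 * (K * (h * S)) * A)
      (𝓝[>] 0) (𝓝 (K * ‖∑ j ∈ Finset.range n, a j • v j‖ + 2 * (K * (0 * S)) * A)) := by
    have hcont : Continuous (fun h : ℝ => K * ‖∑ j ∈ Finset.range n, a j • v j‖ +
      2 * (K * (h * S)) * A) := by fun_prop
    exact (hcont.tendsto 0).mono_left nhdsWithin_le_nhds
  have h1 := ge_of_tendsto hlim (eventually_nhdsWithin_of_forall fun h hh => key h hh)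
  simpa using h1

/-- **Linearization.** -/
theorem linearize [CompleteSpace X] {V : Type*} [NormedAddCommGroup V] [NormedSpace ℝ V]
    [FiniteDimensional ℝ V] (ι : V →L[ℝ] X) (v : ℕ → X) (hv : Summable fun i => ‖v i‖)
    (φ : X → V) {K : ℝ} (hK : 0 ≤ K) (hφ : ∀ x y, ‖φ x - φ y‖ ≤ K * ‖x - y‖) :
    ∃ T : X →L[ℝ] V, ∀ (n : ℕ) (a : ℕ → ℝ) (h C C' : ℝ), 0 < h →
      (∀ (m : ℕ) (t : ℕ → ℝ), (∀ i, t i ∈ Icc (0 : ℝ) 1) →
        ‖(ι (φ (∑ i ∈ Finset.range m, t i • v i + h • ∑ i ∈ Finset.range n, a i • v i)) -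
            (∑ i ∈ Finset.range m, t i • v i + h • ∑ i ∈ Finset.range n, a i • v i)) -
          (ι (φ (∑ i ∈ Finset.range m, t i • v i)) - ∑ i ∈ Finset.range m, t i • v i)‖ ≤ h * C') →
      (∀ (m : ℕ) (t : ℕ → ℝ), (∀ i, t i ∈ Icc (0 : ℝ) 1) → ∀ b : ℕ → ℝ, (∀ i, |b i| ≤ h * |a i|) →
        ‖(ι (φ (∑ i ∈ Finset.range m, t i • v i + ∑ i ∈ Finset.range n, b i • v i)) -
            (∑ i ∈ Finset.range m, t i • v i + ∑ i ∈ Finset.range n, b i • v i)) -
          (ι (φ (∑ i ∈ Finset.range m, t i • v i)) - ∑ i ∈ Finset.range m, t i • v i)‖ ≤ C) →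
      ‖ι (T (∑ i ∈ Finset.range n, a i • v i)) - ∑ i ∈ Finset.range n, a i • v i‖ ≤
        C' + 2 * C * ∑ j ∈ Finset.range n, |a j| := by
  have hcV : CompleteSpace V := FiniteDimensional.complete ℝ V
  have hc := continuous_of_lip hφ
  have hlim := exists_lim hK hφ hc v hv
  choose l hl using hlim
  -- the bound
  have hbound : ∀ (n : ℕ) (a : ℕ → ℝ), ‖∑ j ∈ Finset.range n, a j • l j‖ ≤
      K * ‖∑ j ∈ Finset.range n, a j • v j‖ := by
    intro n a
    have h1 : Tendsto (fun m => ∑ j ∈ Finset.range n, a j • D v φ j m) atTop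
        (𝓝 (∑ j ∈ Finset.range n, a j • l j)) :=
      tendsto_finsetSum _ fun j _ => (hl j).const_smul (a j)
    refine le_of_tendsto h1.norm ?_
    filter_upwards [eventually_ge_atTop n] with m hm
    exact norm_sum_D_le_lip hK hφ v n m hm a
  let c : (ℕ →₀ ℝ) →ₗ[ℝ] X := Finsupp.linearCombination ℝ v
  let c' : (ℕ →₀ ℝ) →ₗ[ℝ] V := Finsupp.linearCombination ℝ l
  have hsum : ∀ (a : ℕ →₀ ℝ), ∃ n, c a = ∑ j ∈ Finset.range n, a j • v j ∧
      c' a = ∑ j ∈ Finset.range n, a j • l j := by
    intro a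
    obtain ⟨n, hn⟩ := a.support.exists_nat_subset_range
    refine ⟨n, ?_, ?_⟩
    · show Finsupp.linearCombination ℝ v a = _
      rw [Finsupp.linearCombination_apply]
      exact Finsupp.sum_of_support_subset a hn _ (fun i _ => zero_smul _ _)
    · show Finsupp.linearCombination ℝ l a = _
      rw [Finsupp.linearCombination_apply]
      exact Finsupp.sum_of_support_subset a hn _ (fun i _ => zero_smul _ _)
  have hcc' : ∀ a, ‖c' a‖ ≤ K * ‖c a‖ := by
    intro a
    obtain ⟨n, h1, h2⟩ := hsum a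
    rw [h1, h2]
    exact hbound n a
  obtain ⟨s, hs⟩ := c.rangeRestrict.exists_rightInverse_of_surjective
    (LinearMap.range_eq_top.2 c.surjective_rangeRestrict)
  have hs' : ∀ w : LinearMap.range c, c (s w) = w := by
    intro w
    have h1 := LinearMap.congr_fun hs w
    have h2 : (c.rangeRestrict (s w) : X) = w := congrArg Subtype.val h1
    exact h2
  let T₀ : LinearMap.range c →L[ℝ] V := (c'.comp s).mkContinuous K (fun w => by
    have h1 := hcc' (s w)
    rw [hs'] at h1
    exact h1)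
  obtain ⟨T, hT⟩ := T₀.exist_extension_of_finiteDimensional_range
  have hTc : ∀ a, T (c a) = c' a := by
    intro a
    have h1 : T (c a) = T₀ ⟨c a, LinearMap.mem_range_self c a⟩ := by
      rw [hT]; rfl
    rw [h1]
    show c' (s ⟨c a, LinearMap.mem_range_self c a⟩) = c' a
    rw [← sub_eq_zero, ← map_sub, ← norm_le_zero_iff]
    refine (hcc' _).trans ?_
    rw [map_sub, hs', sub_self, norm_zero, mul_zero]
  have hTv : ∀ j, T (v j) = l j := by
    intro j
    have h1 := hTc (Finsupp.single j 1)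
    have h2 : c (Finsupp.single j 1) = v j := by
      show Finsupp.linearCombination ℝ v _ = _
      rw [Finsupp.linearCombination_single, one_smul]
    have h3 : c' (Finsupp.single j 1) = l j := by
      show Finsupp.linearCombination ℝ l _ = _
      rw [Finsupp.linearCombination_single, one_smul]
    rwa [h2, h3] at h1
  refine ⟨T, fun n a h C C' hh h1 h2 => ?_⟩
  have hR : Continuous fun x => ι (φ x) - x := by fun_prop
  have h3 : ∀ m, n ≤ m → ‖ι (∑ j ∈ Finset.range n, a j • D v φ j m) -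
      ∑ j ∈ Finset.range n, a j • v j‖ ≤ C' + 2 * C * ∑ j ∈ Finset.range n, |a j| := by
    intro m hm
    have h4 := norm_sum_D_le hR v n m hm a hh (h1 m) (h2 m)
    have h5 : ∑ j ∈ Finset.range n, a j • D v (fun x => ι (φ x) - x) j m =
        ι (∑ j ∈ Finset.range n, a j • D v φ j m) - ∑ j ∈ Finset.range n, a j • v j := by
      rw [map_sum, ← Finset.sum_sub_distrib]
      refine Finset.sum_congr rfl fun j _ => ?_
      rw [D_sub (f := fun x => ι (φ x)) (g := fun x => x) (by fun_prop) continuous_id,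
        D_comp ι hc, D_id, map_smul, smul_sub]
    rwa [h5] at h4
  have h6 : Tendsto (fun m => ‖ι (∑ j ∈ Finset.range n, a j • D v φ j m) -
      ∑ j ∈ Finset.range n, a j • v j‖) atTop (𝓝 ‖ι (∑ j ∈ Finset.range n, a j • l j) -
      ∑ j ∈ Finset.range n, a j • v j‖) := by
    have h7 : Tendsto (fun m => ∑ j ∈ Finset.range n, a j • D v φ j m) atTop
        (𝓝 (∑ j ∈ Finset.range n, a j • l j)) :=
      tendsto_finsetSum _ fun j _ => (hl j).const_smul (a j)
    exact (((ι.continuous.tendsto _).comp h7).sub_const _).norm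
  have h8 : T (∑ i ∈ Finset.range n, a i • v i) = ∑ i ∈ Finset.range n, a i • l i := by
    rw [map_sum]
    refine Finset.sum_congr rfl fun j _ => ?_
    rw [map_smul, hTv]
  rw [h8]
  exact le_of_tendsto h6 (eventually_atTop.2 ⟨n, h3⟩)

end Pool.Agent.H548R3.Lin
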