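import Pool.Agent.Helper362.HapH

/-!
A countable family of test vectors witnessing the failure of the approximation property.
-/

set_option autoImplicit false

open Set Filter Topology Module
open Pool.Agent.Helper362.Hap

namespace Pool.Agent.H548R3.NoAP

/-- the underlying Banach space without the approximation property -/
abbrev E : Type := Data.X ℝ dat

section

variable (D : Data)

/-- test vectors -/
noncomputable def test : (Σ k, Fin (D.r k)) ⊕ Fin (D.s 0) → D.X ℝ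
  | Sum.inl p => D.uu ℝ p
  | Sum.inr i => D.io ℝ 0 (EuclideanSpace.single i 1)

lemma tendsto_test : Tendsto (test D) cofinite (𝓝 0) := by
  have h1 := D.tendsto_uu ℝ
  rw [Metric.tendsto_nhds] at h1 ⊢
  intro ε hε
  have h2 := h1 ε hε
  rw [eventually_cofinite] at h2 ⊢
  refine ((h2.image Sum.inl).union (Set.finite_range (Sum.inr : Fin (D.s 0) →
    (Σ k, Fin (D.r k)) ⊕ Fin (D.s 0)))).subset ?_
  rintro (p | i) hp
  · exact Or.inl ⟨p, hp, rfl⟩
  · exact Or.inr ⟨i, rfl⟩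

/-- Finite rank operators are not close to the identity on the test vectors. -/
theorem test_far (T : D.X ℝ →L[ℝ] D.X ℝ)
    (hT : FiniteDimensional ℝ (LinearMap.range (T : D.X ℝ →ₗ[ℝ] D.X ℝ))) :
    ∃ q, 1 / 8 < ‖T (test D q) - test D q‖ := by
  by_contra hcon
  push Not at hcon
  set R : D.X ℝ →ₗ[ℝ] D.X ℝ := (T : D.X ℝ →ₗ[ℝ] D.X ℝ) - LinearMap.id with hR
  have hRx : ∀ q, ‖R (test D q)‖ ≤ 1 / 8 := fun q => hcon q
  have h0 : ‖D.beta ℝ 0 R‖ ≤ 1 / 8 := D.beta_zero_le ℝ R _ (fun i => hRx (Sum.inr i))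
  have h1 : ∀ k, ‖D.beta ℝ k R - D.beta ℝ (k + 1) R‖ ≤ (1 / 4) * (2 / 3) ^ k := by
    intro k
    have h2 := D.beta_step ℝ k R ((4 / 3) ^ k * (1 / 8)) (fun g => ?_)
    · refine h2.trans (le_of_eq ?_)
      have : (2 / 3 : ℝ) ^ k = (1 / 2) ^ k * (4 / 3) ^ k := by rw [← mul_pow]; norm_num
      rw [this]; ring
    · have h3 : ‖R (D.uu ℝ ⟨k, g⟩)‖ ≤ 1 / 8 := hRx (Sum.inl ⟨k, g⟩)
      unfold Data.uu at h3
      rw [map_smul, norm_smul, RCLike.norm_ofReal, abs_of_nonneg (by positivity)] at h3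
      have h4 : (4 / 3 : ℝ) ^ k * ((3 / 4 : ℝ) ^ k * ‖R (D.bv ℝ k g)‖) = ‖R (D.bv ℝ k g)‖ := by
        rw [← mul_assoc, ← mul_pow]; norm_num
      rw [← h4]
      exact mul_le_mul_of_nonneg_left h3 (by positivity)
  have h5 : ∀ k, ‖D.beta ℝ k R‖ ≤ 7 / 8 - (3 / 4) * (2 / 3) ^ k := by
    intro k
    induction k with
    | zero => rw [pow_zero]; linarith
    | succ k ih =>
      have h6 : ‖D.beta ℝ (k + 1) R‖ ≤ ‖D.beta ℝ k R‖ + ‖D.beta ℝ k R - D.beta ℝ (k + 1) R‖ := by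
        have := norm_sub_le (D.beta ℝ k R) (D.beta ℝ k R - D.beta ℝ (k + 1) R)
        rwa [sub_sub_cancel] at this
      have h7 := h1 k
      rw [pow_succ]
      linarith
  have h8 : Tendsto (fun k => D.beta ℝ k R) atTop (𝓝 (0 - 1)) := by
    have h9 : (fun k => D.beta ℝ k R) = fun k => D.beta ℝ k (T : D.X ℝ →ₗ[ℝ] D.X ℝ) - 1 := by
      funext k
      rw [hR, Data.beta_sub, Data.beta_id]
    rw [h9]
    exact (D.tendsto_beta ℝ T hT).sub_const 1
  have h10 := h8.norm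
  have h11 : ‖(0 - 1 : ℝ)‖ ≤ 7 / 8 := by
    refine le_of_tendsto h10 (Eventually.of_forall (fun k => ?_))
    have := h5 k
    have h12 : (0 : ℝ) < (2 / 3) ^ k := by positivity
    linarith
  rw [zero_sub, norm_neg, norm_one] at h11
  norm_num at h11

/-- basis vectors -/
noncomputable def bas : (Σ k, Fin (D.s k)) → D.X ℝ := fun p =>
  D.io ℝ p.1 (EuclideanSpace.single p.2 1)

lemma io_mem (k : ℕ) (w : D.F ℝ k) : D.io ℝ k w ∈ Submodule.span ℝ (Set.range (bas D)) := by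
  have h1 : w = ∑ i, w i • (EuclideanSpace.single i 1 : D.F ℝ k) := by
    have := (EuclideanSpace.basisFun (Fin (D.s k)) ℝ).sum_repr w
    simp only [EuclideanSpace.basisFun_repr, EuclideanSpace.basisFun_apply] at this
    exact this.symm
  rw [h1, map_sum]
  refine Submodule.sum_mem _ fun i _ => ?_
  rw [map_smul]
  exact Submodule.smul_mem _ _ (Submodule.subset_span ⟨⟨k, i⟩, rfl⟩)

lemma test_mem (q : (Σ k, Fin (D.r k)) ⊕ Fin (D.s 0)) :
    test D q ∈ Submodule.span ℝ (Set.range (bas D)) := by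
  rcases q with p | i
  · show D.uu ℝ p ∈ _
    unfold Data.uu Data.bv
    exact Submodule.smul_mem _ _ (Submodule.sub_mem _ (io_mem D _ _) (io_mem D _ _))
  · exact io_mem D _ _

end

/-- The data of the counterexample in a convenient form. -/
theorem exists_data (D : Data) : ∃ (v : ℕ → D.X ℝ) (J : Type) (_ : Countable J) (N : J → ℕ)
    (a : J → ℕ → ℝ), (Summable fun i => ‖v i‖) ∧
    Tendsto (fun j => ∑ i ∈ Finset.range (N j), a j i • v i) cofinite (𝓝 0) ∧
    ∀ T : D.X ℝ →L[ℝ] D.X ℝ, FiniteDimensional ℝ (LinearMap.range (T : D.X ℝ →ₗ[ℝ] D.X ℝ)) →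
      ∃ j, 1 / 8 < ‖T (∑ i ∈ Finset.range (N j), a j i • v i) -
        ∑ i ∈ Finset.range (N j), a j i • v i‖ := by
  haveI : Nonempty (Σ k, Fin (D.s k)) := ⟨⟨0, ⟨0, D.s_pos 0⟩⟩⟩
  obtain ⟨g, hg⟩ := exists_surjective_nat (Σ k, Fin (D.s k))
  let c : ℕ → ℝ := fun i => (1 / 2) ^ i / (1 + ‖bas D (g i)‖)
  have hc : ∀ i, 0 < c i := fun i => by positivity
  let v : ℕ → D.X ℝ := fun i => c i • bas D (g i)
  have hv : ∀ i, ‖v i‖ ≤ (1 / 2) ^ i := by
    intro i
    show ‖c i • bas D (g i)‖ ≤ _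
    rw [norm_smul, Real.norm_of_nonneg (hc i).le]
    simp only [c]
    rw [div_mul_eq_mul_div, div_le_iff₀ (by positivity)]
    refine mul_le_mul_of_nonneg_left ?_ (by positivity)
    linarith
  have hspan : Submodule.span ℝ (Set.range (bas D)) ≤ Submodule.span ℝ (Set.range v) := by
    rw [Submodule.span_le]
    rintro _ ⟨p, rfl⟩
    obtain ⟨i, rfl⟩ := hg p
    have h1 : bas D (g i) = (c i)⁻¹ • v i := by
      show _ = (c i)⁻¹ • (c i • bas D (g i))
      rw [smul_smul, inv_mul_cancel₀ (hc i).ne', one_smul]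
    rw [h1]
    exact Submodule.smul_mem _ _ (Submodule.subset_span ⟨i, rfl⟩)
  have hex : ∀ q, ∃ (n : ℕ) (b : ℕ → ℝ), test D q = ∑ i ∈ Finset.range n, b i • v i := by
    intro q
    obtain ⟨b, hb⟩ := Finsupp.mem_span_range_iff_exists_finsupp.1 (hspan (test_mem D q))
    obtain ⟨n, hn⟩ := b.support.exists_nat_subset_range
    refine ⟨n, b, ?_⟩
    rw [← hb]
    exact Finsupp.sum_of_support_subset b hn _ (fun i _ => zero_smul _ _)
  choose N a ha using hex
  refine ⟨v, (Σ k, Fin (D.r k)) ⊕ Fin (D.s 0), inferInstance, N, a, ?_, ?_, ?_⟩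
  · exact Summable.of_nonneg_of_le (fun i => norm_nonneg _) hv
      (summable_geometric_of_lt_one (by norm_num) (by norm_num))
  · exact (tendsto_test D).congr ha
  · intro T hT
    obtain ⟨q, hq⟩ := test_far D T hT
    exact ⟨q, by rwa [← ha q]⟩

end Pool.Agent.H548R3.NoAP
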