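import Pool.Agent.H548R3.PDefs
import Pool.Agent.H548R3.LinB

/-!
If a `p`-Banach space `Z` has a Lipschitz section over a Banach space `X` failing the approximation
property on a family of test vectors, then `Z` fails the approximation property.
-/

set_option autoImplicit false
set_option linter.unusedSectionVars false

open Set Filter Topology

namespace Pool.Agent.H548R3.PFree

/-- a union of compact sets shrinking to zero, with zero added, is compact -/
lemma isCompact_shrinking {Z : Type*} [NormedAddCommGroup Z] {J : Type*} (K : J → Set Z)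
    (hK : ∀ j, IsCompact (K j)) (η : J → ℝ) (hη : Tendsto η cofinite (𝓝 0))
    (hKη : ∀ j, ∀ z ∈ K j, ‖z‖ ≤ η j) : IsCompact ({0} ∪ ⋃ j, K j) := by
  rw [isCompact_iff_ultrafilter_le_nhds]
  intro U hU
  by_cases h : (U : Filter Z) ≤ 𝓝 0
  · exact ⟨0, Or.inl rfl, h⟩
  · have h1 : ∃ ε > 0, Metric.ball (0 : Z) ε ∉ U := by
      by_contra hcon
      push Not at hcon
      exact h ((Metric.nhds_basis_ball.ge_iff).2 hcon)
    obtain ⟨ε, hε, hU2⟩ := h1
    have h2 : {j | ¬ η j < ε}.Finite := by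
      have := hη.eventually (gt_mem_nhds hε)
      rwa [eventually_cofinite] at this
    have h3 : IsCompact (⋃ j ∈ {j | ¬ η j < ε}, K j) := h2.isCompact_biUnion fun j _ => hK j
    have h4 : (⋃ j ∈ {j | ¬ η j < ε}, K j) ∈ U := by
      have h5 : ({0} ∪ ⋃ j, K j) ∩ (Metric.ball (0 : Z) ε)ᶜ ∈ U :=
        Filter.inter_mem (le_principal_iff.1 hU) (Ultrafilter.compl_mem_iff_notMem.2 hU2)
      refine Filter.mem_of_superset h5 ?_
      rintro z ⟨hz1, hz2⟩
      have hz3 : ε ≤ ‖z‖ := by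
        rw [mem_compl_iff, mem_ball_zero_iff, not_lt] at hz2
        exact hz2
      rcases hz1 with hz | hz
      · have : z = 0 := hz
        rw [this, norm_zero] at hz3
        linarith
      · obtain ⟨j, hj⟩ := mem_iUnion.1 hz
        refine mem_iUnion₂.2 ⟨j, ?_, hj⟩
        have := hKη j z hj
        rw [mem_ofPred_eq, not_lt]
        linarith
    obtain ⟨z, hz1, hz2⟩ := (isCompact_iff_ultrafilter_le_nhds.1 h3) U (le_principal_iff.2 h4)
    obtain ⟨j, hj, hzj⟩ := mem_iUnion₂.1 hz1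
    exact ⟨z, Or.inr (mem_iUnion.2 ⟨j, hzj⟩), hz2⟩

section

variable {p : ℝ} {Z : Type} [NormedAddCommGroup Z] [Module ℝ Z]

/-- continuous linear maps from a `p`-normed space to a normed space are bounded -/
lemma exists_bound (hp : 0 < p) (hZ : ∀ (a : ℝ) (z : Z), ‖a • z‖ = |a| ^ p * ‖z‖)
    {Y : Type*} [NormedAddCommGroup Y] [NormedSpace ℝ Y] (T : Z →L[ℝ] Y) :
    ∃ C : ℝ, 0 ≤ C ∧ ∀ z, ‖T z‖ ≤ C * ‖z‖ ^ (1 / p) := by
  have h1 : Tendsto T (𝓝 0) (𝓝 0) := by
    have := T.continuous.tendsto 0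
    rwa [map_zero] at this
  have h2 := h1.eventually (Metric.closedBall_mem_nhds (0 : Y) one_pos)
  obtain ⟨r, hr, hr2⟩ := Metric.eventually_nhds_iff_ball.1 h2
  have hr2' : ∀ z, ‖z‖ < r → ‖T z‖ ≤ 1 := by
    intro z hz
    have := hr2 z (mem_ball_zero_iff.2 hz)
    rwa [dist_zero_right] at this
  refine ⟨(r / 2) ^ (-(1 / p)), by positivity, fun z => ?_⟩
  rcases eq_or_ne z 0 with rfl | hz
  · rw [map_zero, norm_zero]; positivity
  have hzn : 0 < ‖z‖ := norm_pos_iff.2 hz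
  set a : ℝ := (r / 2 / ‖z‖) ^ (1 / p) with ha
  have hapos : 0 < a := Real.rpow_pos_of_pos (by positivity) _
  have h3 : ‖a • z‖ = r / 2 := by
    rw [hZ, abs_of_pos hapos, ha, ← Real.rpow_mul (by positivity), one_div_mul_cancel hp.ne',
      Real.rpow_one, div_mul_cancel₀ _ hzn.ne']
  have h4 := hr2' (a • z) (by rw [h3]; linarith)
  rw [map_smul, norm_smul, Real.norm_of_nonneg hapos.le] at h4
  have h5 : ‖T z‖ ≤ a⁻¹ := by
    rw [← mul_one a⁻¹, le_inv_mul_iff₀ hapos]
    exact h4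
  refine h5.trans (le_of_eq ?_)
  rw [ha, Real.div_rpow (by positivity) hzn.le, inv_div, Real.rpow_neg (by positivity),
    div_eq_inv_mul]

lemma continuous_const_smul' (hp : 0 < p) (hZ : ∀ (a : ℝ) (z : Z), ‖a • z‖ = |a| ^ p * ‖z‖)
    (c : ℝ) : Continuous fun z : Z => c • z := by
  have h : LipschitzWith (|c| ^ p).toNNReal (fun z : Z => c • z) := by
    refine LipschitzWith.of_dist_le_mul fun x y => ?_
    rw [dist_eq_norm, dist_eq_norm, ← smul_sub, hZ]
    exact mul_le_mul_of_nonneg_right (Real.le_coe_toNNReal _) (norm_nonneg _)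
  exact h.continuous

/-- **Main theorem.** -/
theorem not_hasAP_of_section (hp : 0 < p) (hZ : ∀ (a : ℝ) (z : Z), ‖a • z‖ = |a| ^ p * ‖z‖)
    {X : Type*} [NormedAddCommGroup X] [NormedSpace ℝ X] [CompleteSpace X]
    (δ : X → Z) {C : ℝ} (hC : 0 ≤ C) (hδ : ∀ x y, ‖δ x - δ y‖ ≤ (C * ‖x - y‖) ^ p)
    (β : Z →L[ℝ] X) (hβ : ∀ x, β (δ x) = x)
    (hX : ∃ (v : ℕ → X) (J : Type) (_ : Countable J) (N : J → ℕ)
      (a : J → ℕ → ℝ), (Summable fun i => ‖v i‖) ∧
      Tendsto (fun j => ∑ i ∈ Finset.range (N j), a j i • v i) cofinite (𝓝 0) ∧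
      ∀ T : X →L[ℝ] X, FiniteDimensional ℝ (LinearMap.range (T : X →ₗ[ℝ] X)) →
        ∃ j, 1 / 8 < ‖T (∑ i ∈ Finset.range (N j), a j i • v i) -
          ∑ i ∈ Finset.range (N j), a j i • v i‖) :
    ¬ HasAP p Z := by
  intro hAP
  obtain ⟨v, J, hJ, N, a, hv, hx0, hT⟩ := hX
  have hδc : Continuous δ := by
    rw [continuous_iff_continuousAt]
    intro x
    rw [ContinuousAt, tendsto_iff_norm_sub_tendsto_zero]
    have h1 : Tendsto (fun y => (C * ‖y - x‖) ^ p) (𝓝 x) (𝓝 ((C * ‖x - x‖) ^ p)) := by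
      have hcont : Continuous fun y : X => (C * ‖y - x‖) ^ p := by
        refine Continuous.rpow_const (by fun_prop) fun _ => Or.inr hp.le
      exact hcont.tendsto x
    rw [sub_self, norm_zero, mul_zero, Real.zero_rpow hp.ne'] at h1
    exact squeeze_zero (fun _ => norm_nonneg _) (fun y => hδ y x) h1
  set x : J → X := fun j => ∑ i ∈ Finset.range (N j), a j i • v i with hx
  -- the compact box
  let Φ : (ℕ → ℝ) → X := fun t => ∑' i, (max 0 (min 1 (t i))) • v i
  have hclamp : ∀ s : ℝ, |max 0 (min 1 s)| ≤ 1 := by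
    intro s
    rw [abs_of_nonneg (le_max_left _ _)]
    exact max_le zero_le_one (min_le_left _ _)
  have hΦ : Continuous Φ := by
    refine continuous_tsum (u := fun i => ‖v i‖) (fun i => ?_) hv fun i t => ?_
    · fun_prop
    · rw [norm_smul, Real.norm_eq_abs]
      calc |max 0 (min 1 (t i))| * ‖v i‖ ≤ 1 * ‖v i‖ :=
            mul_le_mul_of_nonneg_right (hclamp _) (norm_nonneg _)
        _ = ‖v i‖ := one_mul _
  let Q : Set X := Φ '' (Set.pi univ fun _ => Icc (0 : ℝ) 1)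
  have hQ : IsCompact Q := (isCompact_univ_pi fun _ => isCompact_Icc).image hΦ
  have hQmem : ∀ (m : ℕ) (t : ℕ → ℝ), (∀ i, t i ∈ Icc (0 : ℝ) 1) →
      ∑ i ∈ Finset.range m, t i • v i ∈ Q := by
    intro m t ht
    refine ⟨fun i => if i < m then t i else 0, fun i _ => ?_, ?_⟩
    · simp only
      split_ifs
      · exact ht i
      · exact ⟨le_rfl, zero_le_one⟩
    · show ∑' i, (max 0 (min 1 (if i < m then t i else 0))) • v i = _
      rw [tsum_eq_sum (s := Finset.range m)]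
      · refine Finset.sum_congr rfl fun i hi => ?_
        rw [if_pos (Finset.mem_range.1 hi), min_eq_right (ht i).2, max_eq_right (ht i).1]
      · intro i hi
        rw [if_neg (fun h => hi (Finset.mem_range.2 h))]
        simp
  -- constants
  obtain ⟨e, he⟩ := exists_injective_nat J
  let η : J → ℝ := fun j => 1 / ((e j : ℝ) + 1)
  have hηpos : ∀ j, 0 < η j := fun j => by positivity
  have hη : Tendsto η cofinite (𝓝 0) := by
    have h1 : Tendsto e cofinite atTop := by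
      rw [← Nat.cofinite_eq_atTop]
      exact he.tendsto_cofinite
    exact tendsto_one_div_add_atTop_nhds_zero_nat.comp h1
  let A : J → ℝ := fun j => ∑ i ∈ Finset.range (N j), |a j i|
  let S : J → ℝ := fun j => ∑ i ∈ Finset.range (N j), |a j i| * ‖v i‖
  have hA : ∀ j, 0 ≤ A j := fun j => Finset.sum_nonneg fun i _ => abs_nonneg _
  have hS : ∀ j, 0 ≤ S j := fun j =>
    Finset.sum_nonneg fun i _ => mul_nonneg (abs_nonneg _) (norm_nonneg _)
  let c : J → ℝ := fun j => 2 * A j + 1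
  have hc : ∀ j, 0 < c j := fun j => by have := hA j; positivity
  let h : J → ℝ := fun j => η j / (c j * (S j + 1))
  have hh : ∀ j, 0 < h j := fun j => by have := hc j; have := hS j; have := hηpos j; positivity
  have hcS : ∀ j, c j * (h j * S j) ≤ η j := by
    intro j
    have h1 := hc j
    have h2 := hS j
    have h3 : c j * (h j * S j) = η j * (S j / (S j + 1)) := by
      simp only [h]
      field_simp
    rw [h3]
    have h4 : S j / (S j + 1) ≤ 1 := by
      rw [div_le_one (by positivity)]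
      linarith
    calc η j * (S j / (S j + 1)) ≤ η j * 1 := mul_le_mul_of_nonneg_left h4 (hηpos j).le
      _ = η j := mul_one _
  -- the compact sets
  let Ψ : J → (ℕ → ℝ) → X := fun j b => ∑ i ∈ Finset.range (N j), b i • v i
  have hΨ : ∀ j, Continuous (Ψ j) := fun j => by
    show Continuous fun b : ℕ → ℝ => ∑ i ∈ Finset.range (N j), b i • v i
    fun_prop
  let W : J → Set X := fun j =>
    Ψ j '' (Set.pi univ fun i => Icc (-(h j * |a j i|)) (h j * |a j i|))
  have hW : ∀ j, IsCompact (W j) := fun j => (isCompact_univ_pi fun _ => isCompact_Icc).image (hΨ j)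
  have hWn : ∀ j, ∀ w ∈ W j, ‖w‖ ≤ h j * S j := by
    rintro j _ ⟨b, hb, rfl⟩
    show ‖∑ i ∈ Finset.range (N j), b i • v i‖ ≤ _
    refine (norm_sum_le _ _).trans ?_
    simp only [S]
    rw [Finset.mul_sum]
    refine Finset.sum_le_sum fun i _ => ?_
    rw [norm_smul, Real.norm_eq_abs, ← mul_assoc]
    exact mul_le_mul_of_nonneg_right (abs_le.2 (hb i (mem_univ i))) (norm_nonneg _)
  let K1 : J → Set Z := fun j => (fun u => (h j)⁻¹ • (δ (u + h j • x j) - δ u)) '' Q
  let K2 : J → Set Z := fun j => (fun q : X × X => c j • (δ (q.1 + q.2) - δ q.1)) '' (Q ×ˢ W j)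
  have hK1 : ∀ j, IsCompact (K1 j) := fun j => by
    refine hQ.image ((continuous_const_smul' hp hZ _).comp ?_)
    fun_prop
  have hK2 : ∀ j, IsCompact (K2 j) := fun j => by
    refine (hQ.prod (hW j)).image ((continuous_const_smul' hp hZ _).comp ?_)
    fun_prop
  have hK1n : ∀ j, ∀ z ∈ K1 j, ‖z‖ ≤ (C * ‖x j‖) ^ p := by
    rintro j _ ⟨u, hu, rfl⟩
    show ‖(h j)⁻¹ • (δ (u + h j • x j) - δ u)‖ ≤ _
    rw [hZ, abs_of_pos (inv_pos.2 (hh j))]
    have h1 := hδ (u + h j • x j) u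
    rw [add_sub_cancel_left, norm_smul, Real.norm_of_nonneg (hh j).le] at h1
    calc (h j)⁻¹ ^ p * ‖δ (u + h j • x j) - δ u‖ ≤ (h j)⁻¹ ^ p * (C * (h j * ‖x j‖)) ^ p :=
          mul_le_mul_of_nonneg_left h1 (Real.rpow_nonneg (inv_pos.2 (hh j)).le _)
      _ = ((h j)⁻¹ * (C * (h j * ‖x j‖))) ^ p := by
          rw [Real.mul_rpow (inv_pos.2 (hh j)).le]
          exact mul_nonneg hC (mul_nonneg (hh j).le (norm_nonneg _))
      _ = (C * ‖x j‖) ^ p := by
          congr 1
          have := (hh j).ne'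
          field_simp
  have hK2n : ∀ j, ∀ z ∈ K2 j, ‖z‖ ≤ (C * η j) ^ p := by
    rintro j _ ⟨⟨u, w⟩, ⟨hu, hw⟩, rfl⟩
    show ‖c j • (δ (u + w) - δ u)‖ ≤ _
    rw [hZ, abs_of_pos (hc j)]
    have h1 := hδ (u + w) u
    rw [add_sub_cancel_left] at h1
    have hw' : ‖w‖ ≤ h j * S j := hWn j w hw
    calc c j ^ p * ‖δ (u + w) - δ u‖ ≤ c j ^ p * (C * ‖w‖) ^ p :=
          mul_le_mul_of_nonneg_left h1 (Real.rpow_nonneg (hc j).le _)
      _ = (c j * (C * ‖w‖)) ^ p := by
          rw [Real.mul_rpow (hc j).le (mul_nonneg hC (norm_nonneg _))]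
      _ ≤ (C * η j) ^ p := by
          refine Real.rpow_le_rpow (mul_nonneg (hc j).le (mul_nonneg hC (norm_nonneg _))) ?_ hp.le
          have h2 : c j * ‖w‖ ≤ η j :=
            (mul_le_mul_of_nonneg_left hw' (hc j).le).trans (hcS j)
          calc c j * (C * ‖w‖) = C * (c j * ‖w‖) := by ring
            _ ≤ C * η j := mul_le_mul_of_nonneg_left h2 hC
  have hcompact : IsCompact ({0} ∪ ⋃ j, (K1 j ∪ K2 j)) := by
    refine isCompact_shrinking (fun j => K1 j ∪ K2 j) (fun j => (hK1 j).union (hK2 j))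
      (fun j => max ((C * ‖x j‖) ^ p) ((C * η j) ^ p)) ?_ ?_
    · have h1 : Tendsto (fun j => (C * ‖x j‖) ^ p) cofinite (𝓝 0) := by
        have h2 : Tendsto (fun j => C * ‖x j‖) cofinite (𝓝 0) := by
          have := hx0.norm.const_mul C
          rwa [norm_zero, mul_zero] at this
        have h3 := h2.rpow_const (p := p) (Or.inr hp.le)
        rwa [Real.zero_rpow hp.ne'] at h3
      have h4 : Tendsto (fun j => (C * η j) ^ p) cofinite (𝓝 0) := by
        have h2 : Tendsto (fun j => C * η j) cofinite (𝓝 0) := by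
          have := hη.const_mul C
          rwa [mul_zero] at this
        have h3 := h2.rpow_const (p := p) (Or.inr hp.le)
        rwa [Real.zero_rpow hp.ne'] at h3
      have h5 := h1.max h4
      rwa [max_self] at h5
    · rintro j z (hz | hz)
      · exact le_max_of_le_left (hK1n j z hz)
      · exact le_max_of_le_right (hK2n j z hz)
  -- the finite rank operator
  obtain ⟨Cβ, hCβ, hβb⟩ := exists_bound hp hZ β
  obtain ⟨T', hT'fin, hT'⟩ := hAP _ hcompact (1 / (16 * (Cβ + 1))) (by positivity)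
  have hT'2 : ∀ z ∈ ({0} ∪ ⋃ j, (K1 j ∪ K2 j) : Set Z), ‖β (T' z) - β z‖ ≤ 1 / 16 := by
    intro z hz
    rw [← map_sub]
    refine (hβb _).trans ?_
    have h1 : ‖T' z - z‖ ^ (1 / p) < 1 / (16 * (Cβ + 1)) := hT' z hz
    calc Cβ * ‖T' z - z‖ ^ (1 / p) ≤ (Cβ + 1) * (1 / (16 * (Cβ + 1))) := by
          refine mul_le_mul (by linarith) h1.le (Real.rpow_nonneg (norm_nonneg _) _) (by positivity)
      _ = 1 / 16 := by
          have : Cβ + 1 ≠ 0 := by positivity
          field_simp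
  -- the finite dimensional range
  let V : Submodule ℝ X := (LinearMap.range (T' : Z →ₗ[ℝ] Z)).map (β : Z →ₗ[ℝ] X)
  have hV : FiniteDimensional ℝ V := by
    have := hT'fin
    infer_instance
  have hmemV : ∀ y, β (T' (δ y)) ∈ V := fun y => ⟨T' (δ y), ⟨δ y, rfl⟩, rfl⟩
  let φ : X → V := fun y => ⟨β (T' (δ y)), hmemV y⟩
  obtain ⟨Cb, hCb, hbb⟩ := exists_bound hp hZ (β.comp T')
  have hφ : ∀ y y', ‖φ y - φ y'‖ ≤ (Cb * C) * ‖y - y'‖ := by
    intro y y'
    have h1 : ‖φ y - φ y'‖ = ‖(β.comp T') (δ y - δ y')‖ := by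
      rw [map_sub]; rfl
    rw [h1]
    refine (hbb _).trans ?_
    have h2 : ‖δ y - δ y'‖ ^ (1 / p) ≤ C * ‖y - y'‖ := by
      have h3 : 0 ≤ C * ‖y - y'‖ := mul_nonneg hC (norm_nonneg _)
      calc ‖δ y - δ y'‖ ^ (1 / p) ≤ ((C * ‖y - y'‖) ^ p) ^ (1 / p) :=
            Real.rpow_le_rpow (norm_nonneg _) (hδ y y') (by positivity)
        _ = C * ‖y - y'‖ := by
            rw [← Real.rpow_mul h3, mul_one_div_cancel hp.ne', Real.rpow_one]
    calc Cb * ‖δ y - δ y'‖ ^ (1 / p) ≤ Cb * (C * ‖y - y'‖) := mul_le_mul_of_nonneg_left h2 hCb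
      _ = _ := by ring
  obtain ⟨T, hTlin⟩ := Lin.linearize (V.subtypeL) v hv φ (mul_nonneg hCb hC) hφ
  obtain ⟨j, hj⟩ := hT (V.subtypeL.comp T) (by
    have h1 : LinearMap.range ((V.subtypeL.comp T : X →L[ℝ] X) : X →ₗ[ℝ] X) ≤ V := by
      rintro _ ⟨y, rfl⟩
      exact (T y).2
    exact Submodule.finiteDimensional_of_le h1)
  have hR : ∀ y u : X, (V.subtypeL (φ y) - y) - (V.subtypeL (φ u) - u) =
      β (T' (δ y - δ u)) - β (δ y - δ u) := by
    intro y u
    show (β (T' (δ y)) - y) - (β (T' (δ u)) - u) = _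
    rw [map_sub, map_sub, map_sub, hβ, hβ]
    abel
  have hest := hTlin (N j) (a j) (h j) ((1 / 16) / c j) (1 / 16) (hh j) (fun m t ht => by
    rw [hR]
    have h1 := hT'2 ((h j)⁻¹ • (δ (∑ i ∈ Finset.range m, t i • v i + h j • x j) -
      δ (∑ i ∈ Finset.range m, t i • v i)))
      (Or.inr (mem_iUnion.2 ⟨j, Or.inl ⟨_, hQmem m t ht, rfl⟩⟩))
    rw [map_smul, map_smul, map_smul, ← smul_sub, norm_smul, Real.norm_of_nonneg
      (inv_pos.2 (hh j)).le, inv_mul_le_iff₀ (hh j)] at h1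
    exact h1) (fun m t ht b hb => by
    rw [hR]
    have h1 := hT'2 (c j • (δ (∑ i ∈ Finset.range m, t i • v i +
      ∑ i ∈ Finset.range (N j), b i • v i) - δ (∑ i ∈ Finset.range m, t i • v i)))
      (Or.inr (mem_iUnion.2 ⟨j, Or.inr ⟨(_, ∑ i ∈ Finset.range (N j), b i • v i),
        ⟨hQmem m t ht, ⟨b, fun i _ => abs_le.1 (hb i), rfl⟩⟩, rfl⟩⟩))
    rw [map_smul, map_smul, map_smul, ← smul_sub, norm_smul, Real.norm_of_nonneg (hc j).le] at h1
    rw [le_div_iff₀ (hc j), mul_comm]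
    exact h1)
  have hfinal : 1 / 16 + 2 * ((1 / 16) / c j) * ∑ i ∈ Finset.range (N j), |a j i| ≤ 1 / 8 := by
    have h1 : 2 * ((1 / 16) / c j) * A j = (1 / 16) * ((2 * A j) / c j) := by ring
    have h2 : (2 * A j) / c j ≤ 1 := by
      rw [div_le_one (hc j)]
      simp only [c]
      linarith
    show 1 / 16 + 2 * ((1 / 16) / c j) * A j ≤ 1 / 8
    rw [h1]
    linarith
  have h9 : ‖(V.subtypeL.comp T) (∑ i ∈ Finset.range (N j), a j i • v i) -
      ∑ i ∈ Finset.range (N j), a j i • v i‖ ≤ 1 / 8 := hest.trans hfinal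
  linarith

end

end Pool.Agent.H548R3.PFree
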