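import Pool.Agent.H548R3.PDefs

/-!
Construction of Lipschitz free `p`-spaces.
-/

set_option autoImplicit false
set_option linter.unusedSectionVars false

open Set Filter Topology

namespace Pool.Agent.H548R3.PFree

/-- finite real combinations of pairs of points -/
def Pre (_ : ℝ) (M : Type) : Type := (M × M) →₀ ℝ

noncomputable instance (p : ℝ) (M : Type) : AddCommGroup (Pre p M) :=
  inferInstanceAs (AddCommGroup ((M × M) →₀ ℝ))

noncomputable instance (p : ℝ) (M : Type) : Module ℝ (Pre p M) :=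
  inferInstanceAs (Module ℝ ((M × M) →₀ ℝ))

section

variable {p : ℝ} {M : Type} [MetricSpace M]

/-- the `p`-th power of the transport cost of a combination -/
noncomputable def cost (p : ℝ) (a : (M × M) →₀ ℝ) : ℝ :=
  ∑ q ∈ a.support, (|a q| * dist q.1 q.2) ^ p

lemma cost_eq (hp : 0 < p) (a : (M × M) →₀ ℝ) (s : Finset (M × M)) (hs : a.support ⊆ s) :
    cost p a = ∑ q ∈ s, (|a q| * dist q.1 q.2) ^ p := by
  refine Finset.sum_subset hs fun q _ hq => ?_
  rw [Finsupp.notMem_support_iff.1 hq, abs_zero, zero_mul, Real.zero_rpow hp.ne']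

lemma cost_nonneg (a : (M × M) →₀ ℝ) : 0 ≤ cost p a :=
  Finset.sum_nonneg fun q _ => Real.rpow_nonneg (mul_nonneg (abs_nonneg _) dist_nonneg) _

lemma cost_add_le (hp : 0 < p) (hp1 : p ≤ 1) (a b : (M × M) →₀ ℝ) :
    cost p (a + b) ≤ cost p a + cost p b := by
  classical
  rw [cost_eq hp (a + b) (a.support ∪ b.support) Finsupp.support_add,
    cost_eq hp a (a.support ∪ b.support) Finset.subset_union_left,
    cost_eq hp b (a.support ∪ b.support) Finset.subset_union_right, ← Finset.sum_add_distrib]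
  refine Finset.sum_le_sum fun q _ => ?_
  have h1 : |(a + b) q| * dist q.1 q.2 ≤ |a q| * dist q.1 q.2 + |b q| * dist q.1 q.2 := by
    rw [← add_mul]
    exact mul_le_mul_of_nonneg_right (abs_add_le _ _) dist_nonneg
  have h2 : 0 ≤ |a q| * dist q.1 q.2 := mul_nonneg (abs_nonneg _) dist_nonneg
  have h3 : 0 ≤ |b q| * dist q.1 q.2 := mul_nonneg (abs_nonneg _) dist_nonneg
  exact (Real.rpow_le_rpow (mul_nonneg (abs_nonneg _) dist_nonneg) h1 hp.le).trans
    (Real.rpow_add_le_add_rpow h2 h3 hp.le hp1)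

lemma cost_smul (hp : 0 < p) (c : ℝ) (a : (M × M) →₀ ℝ) :
    cost p (c • a) = |c| ^ p * cost p a := by
  rw [cost_eq hp (c • a) a.support Finsupp.support_smul]
  unfold cost
  rw [Finset.mul_sum]
  refine Finset.sum_congr rfl fun q _ => ?_
  rw [Finsupp.smul_apply, smul_eq_mul, abs_mul, mul_assoc,
    Real.mul_rpow (abs_nonneg _) (mul_nonneg (abs_nonneg _) dist_nonneg)]

lemma cost_single (hp : 0 < p) (x y : M) : cost p (Finsupp.single (x, y) 1) = dist x y ^ p := by
  classical
  rw [cost_eq hp _ {(x, y)} Finsupp.support_single_subset, Finset.sum_singleton,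
    Finsupp.single_eq_same, abs_one, one_mul]

lemma apply_bd {M' X : Type} [AddCommGroup X] [Module ℝ X] (g : (M' →₀ ℝ) →ₗ[ℝ] X)
    (a : (M' × M') →₀ ℝ) :
    g (Finsupp.linearCombination ℝ
      (fun q : M' × M' => (Finsupp.single q.1 1 - Finsupp.single q.2 1 : M' →₀ ℝ)) a) =
      ∑ q ∈ a.support, a q • g (Finsupp.single q.1 1 - Finsupp.single q.2 1) := by
  rw [Finsupp.linearCombination_apply, Finsupp.sum, map_sum]
  exact Finset.sum_congr rfl fun q _ => map_smul g _ _

lemma rpow_sum_le {ι : Type*} (hp : 0 < p) (hp1 : p ≤ 1) (s : Finset ι) (b : ι → ℝ)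
    (hb : ∀ i, 0 ≤ b i) : (∑ i ∈ s, b i) ^ p ≤ ∑ i ∈ s, b i ^ p := by
  classical
  induction s using Finset.induction_on with
  | empty => simp [Real.zero_rpow hp.ne']
  | insert i s hi ih =>
    rw [Finset.sum_insert hi, Finset.sum_insert hi]
    exact (Real.rpow_add_le_add_rpow (hb i) (Finset.sum_nonneg fun j _ => hb j) hp.le hp1).trans
      (add_le_add le_rfl ih)

end

section

variable (p : ℝ) [hp : Fact (0 < p ∧ p ≤ 1)] (M : Type) [MetricSpace M]

noncomputable def preSeminorm : AddGroupSeminorm (Pre p M) where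
  toFun a := cost p (show (M × M) →₀ ℝ from a)
  map_zero' := by
    show cost p (0 : (M × M) →₀ ℝ) = 0
    simp [cost]
  add_le' a b := cost_add_le hp.out.1 hp.out.2 _ _
  neg' a := by
    show cost p (-(show (M × M) →₀ ℝ from a)) = cost p _
    have := cost_smul hp.out.1 (-1) (show (M × M) →₀ ℝ from a)
    rw [neg_one_smul, abs_neg, abs_one, Real.one_rpow, one_mul] at this
    exact this

noncomputable instance : SeminormedAddCommGroup (Pre p M) :=
  (preSeminorm p M).toSeminormedAddCommGroup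

/-- the boundary map -/
noncomputable def bd : Pre p M →ₗ[ℝ] (M →₀ ℝ) :=
  Finsupp.linearCombination ℝ fun q : M × M => Finsupp.single q.1 1 - Finsupp.single q.2 1

/-- the `p`-seminormed space of finitely supported elements -/
abbrev QQ : Type := Pre p M ⧸ LinearMap.ker (bd p M)

variable {p M}

lemma norm_pre (a : Pre p M) : ‖a‖ = cost p (show (M × M) →₀ ℝ from a) := rfl

lemma norm_pre_smul (c : ℝ) (a : Pre p M) : ‖c • a‖ = |c| ^ p * ‖a‖ :=
  cost_smul hp.out.1 c _

/-- an elementary pair -/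
noncomputable def el (x y : M) : Pre p M := (Finsupp.single (x, y) 1 : (M × M) →₀ ℝ)

lemma norm_el (x y : M) : ‖(el x y : Pre p M)‖ = dist x y ^ p := cost_single hp.out.1 x y

lemma bd_el (x y : M) : bd p M (el x y) = Finsupp.single x 1 - Finsupp.single y 1 := by
  show Finsupp.linearCombination ℝ _ (Finsupp.single (x, y) (1 : ℝ)) = _
  rw [Finsupp.linearCombination_single, one_smul]

lemma norm_QQ_smul_le (c : ℝ) (x : QQ p M) : ‖c • x‖ ≤ |c| ^ p * ‖x‖ := by
  refine le_of_forall_pos_le_add fun ε hε => ?_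
  have hcp : 0 ≤ |c| ^ p := Real.rpow_nonneg (abs_nonneg _) _
  obtain ⟨a, ha, ha2⟩ := Submodule.Quotient.norm_mk_lt x (ε := ε / (|c| ^ p + 1)) (by positivity)
  have h1 : ‖c • x‖ ≤ ‖c • a‖ := by
    have h2 : c • x = Submodule.Quotient.mk (c • a) := by
      rw [Submodule.Quotient.mk_smul, ha]
    rw [h2]
    exact Submodule.Quotient.norm_mk_le _ _
  rw [norm_pre_smul] at h1
  have h3 : |c| ^ p * (ε / (|c| ^ p + 1)) ≤ ε := by
    rw [mul_div_assoc', div_le_iff₀ (by positivity)]
    nlinarith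
  nlinarith

lemma norm_QQ_smul (c : ℝ) (x : QQ p M) : ‖c • x‖ = |c| ^ p * ‖x‖ := by
  refine le_antisymm (norm_QQ_smul_le c x) ?_
  rcases eq_or_ne c 0 with rfl | hc
  · rw [abs_zero, Real.zero_rpow hp.out.1.ne', zero_mul]
    exact norm_nonneg _
  · have h1 := norm_QQ_smul_le c⁻¹ (c • x)
    rw [smul_smul, inv_mul_cancel₀ hc, one_smul, abs_inv, Real.inv_rpow (abs_nonneg _)] at h1
    have hcp : 0 < |c| ^ p := Real.rpow_pos_of_pos (abs_pos.2 hc) _
    rwa [le_inv_mul_iff₀ hcp] at h1

instance : UniformContinuousConstSMul ℝ (QQ p M) where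
  uniformContinuous_const_smul c := by
    have h : LipschitzWith (|c| ^ p).toNNReal (fun z : QQ p M => c • z) := by
      refine LipschitzWith.of_dist_le_mul fun x y => ?_
      rw [dist_eq_norm, dist_eq_norm, ← smul_sub, norm_QQ_smul]
      exact mul_le_mul_of_nonneg_right (Real.le_coe_toNNReal _) (norm_nonneg _)
    exact h.uniformContinuous

variable (p M)

/-- The Lipschitz free `p`-space. -/
abbrev FF : Type := UniformSpace.Completion (QQ p M)

variable {p M}

lemma norm_FF_smul (c : ℝ) (x : FF p M) : ‖c • x‖ = |c| ^ p * ‖x‖ := by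
  induction x using UniformSpace.Completion.induction_on with
  | hp =>
    refine isClosed_eq ?_ ?_
    · exact (continuous_const_smul c).norm
    · exact continuous_const.mul continuous_norm
  | ih a =>
    rw [← UniformSpace.Completion.coe_smul, UniformSpace.Completion.norm_coe,
      UniformSpace.Completion.norm_coe, norm_QQ_smul]

/-- the class of an elementary pair -/
noncomputable def cl (x y : M) : FF p M :=
  ((Submodule.Quotient.mk (el x y) : QQ p M) : FF p M)

lemma cl_sub_cl (x y o : M) : (cl x o : FF p M) - cl y o = cl x y := by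
  unfold cl
  rw [← UniformSpace.Completion.coe_sub, ← Submodule.Quotient.mk_sub]
  congr 1
  rw [Submodule.Quotient.eq, LinearMap.mem_ker, map_sub, map_sub, bd_el, bd_el, bd_el]
  abel

lemma norm_cl (x y : M) : ‖(cl x y : FF p M)‖ = dist x y ^ p := by
  unfold cl
  rw [UniformSpace.Completion.norm_coe]
  refine le_antisymm ((Submodule.Quotient.norm_mk_le _ _).trans (norm_el x y).le) ?_
  refine le_of_forall_pos_le_add fun ε hε => ?_
  obtain ⟨a, ha, ha2⟩ := Submodule.Quotient.norm_mk_lt (Submodule.Quotient.mk (el x y) : QQ p M) hε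
  rw [Submodule.Quotient.eq, LinearMap.mem_ker, map_sub, sub_eq_zero, bd_el] at ha
  refine le_trans ?_ ha2.le
  let g : (M →₀ ℝ) →ₗ[ℝ] ℝ := Finsupp.linearCombination ℝ fun z => dist z y
  have h1 : g (bd p M a) = dist x y := by
    rw [ha, map_sub]
    show Finsupp.linearCombination ℝ _ _ - Finsupp.linearCombination ℝ _ _ = _
    rw [Finsupp.linearCombination_single, Finsupp.linearCombination_single]
    simp
  have h2 : g (bd p M a) = ∑ q ∈ (show (M × M) →₀ ℝ from a).support,
      (show (M × M) →₀ ℝ from a) q * (dist q.1 y - dist q.2 y) := by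
    refine (apply_bd g (show (M × M) →₀ ℝ from a)).trans ?_
    refine Finset.sum_congr rfl fun q _ => ?_
    rw [map_sub, smul_eq_mul]
    congr 1
    show Finsupp.linearCombination ℝ _ _ - Finsupp.linearCombination ℝ _ _ = _
    rw [Finsupp.linearCombination_single, Finsupp.linearCombination_single]
    simp
  have h3 : dist x y ≤ ∑ q ∈ (show (M × M) →₀ ℝ from a).support,
      |(show (M × M) →₀ ℝ from a) q| * dist q.1 q.2 := by
    rw [← h1, h2]
    refine Finset.sum_le_sum fun q _ => ?_
    refine (le_abs_self _).trans ?_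
    rw [abs_mul]
    exact mul_le_mul_of_nonneg_left (abs_dist_sub_le _ _ _) (abs_nonneg _)
  calc dist x y ^ p ≤ (∑ q ∈ (show (M × M) →₀ ℝ from a).support,
      |(show (M × M) →₀ ℝ from a) q| * dist q.1 q.2) ^ p :=
        Real.rpow_le_rpow dist_nonneg h3 hp.out.1.le
    _ ≤ ‖a‖ := rpow_sum_le hp.out.1 hp.out.2 _ _ fun q => mul_nonneg (abs_nonneg _) dist_nonneg

lemma pnorm_le_iff {Z : Type} [NormedAddCommGroup Z] (z : Z) {B : ℝ} (hB : 0 ≤ B) :
    pnorm p z ≤ B ↔ ‖z‖ ≤ B ^ p := by
  unfold pnorm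
  rw [one_div]
  exact Real.rpow_inv_le_iff_of_pos (norm_nonneg _) hB hp.out.1

lemma pnorm_rpow {Z : Type} [NormedAddCommGroup Z] (z : Z) : pnorm p z ^ p = ‖z‖ := by
  unfold pnorm
  rw [← Real.rpow_mul (norm_nonneg _), one_div_mul_cancel hp.out.1.ne', Real.rpow_one]

lemma pnorm_nonneg {Z : Type} [NormedAddCommGroup Z] (z : Z) : 0 ≤ pnorm p z :=
  Real.rpow_nonneg (norm_nonneg _) _

/-- The universal property. -/
theorem exists_lift (o : M) (X : Type) [NormedAddCommGroup X] [Module ℝ X] (hX : IsPBanach p X)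
    (f : M → X) (hfo : f o = 0) :
    (∃ L : ℝ, ∀ x y, pnorm p (f x - f y) ≤ L * dist x y) →
    ∃ T : FF p M →L[ℝ] X, (∀ x, T (cl x o) = f x) ∧
      ∀ L : ℝ, 0 ≤ L → (∀ x y, pnorm p (f x - f y) ≤ L * dist x y) →
        ∀ z, pnorm p (T z) ≤ L * pnorm p z := by
  intro hL
  have hcX : CompleteSpace X := hX.2
  have hcs : ContinuousConstSMul ℝ X := ⟨fun c => by
    have h : LipschitzWith (|c| ^ p).toNNReal (fun z : X => c • z) := by
      refine LipschitzWith.of_dist_le_mul fun x y => ?_
      rw [dist_eq_norm, dist_eq_norm, ← smul_sub, hX.1]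
      exact mul_le_mul_of_nonneg_right (Real.le_coe_toNNReal _) (norm_nonneg _)
    exact h.continuous⟩
  let g : (M →₀ ℝ) →ₗ[ℝ] X := Finsupp.linearCombination ℝ f
  have hg : ∀ x y : M, g (Finsupp.single x 1 - Finsupp.single y 1) = f x - f y := by
    intro x y
    rw [map_sub]
    show Finsupp.linearCombination ℝ _ _ - Finsupp.linearCombination ℝ _ _ = _
    rw [Finsupp.linearCombination_single, Finsupp.linearCombination_single, one_smul, one_smul]
  have hbound : ∀ L : ℝ, 0 ≤ L → (∀ x y, pnorm p (f x - f y) ≤ L * dist x y) →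
      ∀ a : Pre p M, ‖g (bd p M a)‖ ≤ L ^ p * ‖a‖ := by
    intro L hL0 hL a
    have h2 : g (bd p M a) = ∑ q ∈ (show (M × M) →₀ ℝ from a).support,
        (show (M × M) →₀ ℝ from a) q • (f q.1 - f q.2) := by
      refine (apply_bd g (show (M × M) →₀ ℝ from a)).trans ?_
      refine Finset.sum_congr rfl fun q _ => ?_
      rw [hg]
    rw [h2, norm_pre]
    unfold cost
    rw [Finset.mul_sum]
    refine norm_sum_le_of_le _ fun q _ => ?_
    rw [hX.1]
    have h3 := (pnorm_le_iff (p := p) (f q.1 - f q.2) (mul_nonneg hL0 dist_nonneg)).1 (hL q.1 q.2)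
    calc |(show (M × M) →₀ ℝ from a) q| ^ p * ‖f q.1 - f q.2‖
        ≤ |(show (M × M) →₀ ℝ from a) q| ^ p * (L * dist q.1 q.2) ^ p :=
          mul_le_mul_of_nonneg_left h3 (Real.rpow_nonneg (abs_nonneg _) _)
      _ = L ^ p * (|(show (M × M) →₀ ℝ from a) q| * dist q.1 q.2) ^ p := by
          rw [Real.mul_rpow hL0 dist_nonneg, Real.mul_rpow (abs_nonneg _) dist_nonneg]
          ring
  let TQ : QQ p M →ₗ[ℝ] X := (LinearMap.ker (bd p M)).liftQ (g.comp (bd p M)) (by
    intro a ha
    rw [LinearMap.mem_ker] at ha ⊢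
    rw [LinearMap.comp_apply, ha, map_zero])
  have hTQmk : ∀ a : Pre p M, TQ (Submodule.Quotient.mk a) = g (bd p M a) := fun a => rfl
  have hTQ : ∀ L : ℝ, 0 ≤ L → (∀ x y, pnorm p (f x - f y) ≤ L * dist x y) →
      ∀ x : QQ p M, ‖TQ x‖ ≤ L ^ p * ‖x‖ := by
    intro L hL0 hL x
    refine le_of_forall_pos_le_add fun ε hε => ?_
    have hLp : 0 ≤ L ^ p := Real.rpow_nonneg hL0 _
    obtain ⟨a, ha, ha2⟩ := Submodule.Quotient.norm_mk_lt x (ε := ε / (L ^ p + 1)) (by positivity)
    have h1 := hbound L hL0 hL a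
    rw [← hTQmk, ha] at h1
    have h3 : L ^ p * (ε / (L ^ p + 1)) ≤ ε := by
      rw [mul_div_assoc', div_le_iff₀ (by positivity)]
      nlinarith
    nlinarith
  obtain ⟨L₀, hL₀⟩ := hL
  have hL₁ : ∀ x y, pnorm p (f x - f y) ≤ max L₀ 0 * dist x y := fun x y =>
    (hL₀ x y).trans (mul_le_mul_of_nonneg_right (le_max_left _ _) dist_nonneg)
  have hTQc : Continuous TQ := by
    have h : LipschitzWith ((max L₀ 0) ^ p).toNNReal TQ := by
      refine LipschitzWith.of_dist_le_mul fun x y => ?_
      rw [dist_eq_norm, dist_eq_norm, ← map_sub]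
      refine (hTQ _ (le_max_right _ _) hL₁ _).trans ?_
      exact mul_le_mul_of_nonneg_right (Real.le_coe_toNNReal _) (norm_nonneg _)
    exact h.continuous
  let TQ' : QQ p M →L[ℝ] X := ⟨TQ, hTQc⟩
  let ι : QQ p M →L[ℝ] FF p M :=
    ⟨{ toFun := fun x => (x : FF p M)
       map_add' := fun x y => UniformSpace.Completion.coe_add x y
       map_smul' := fun c x => UniformSpace.Completion.coe_smul c x },
      UniformSpace.Completion.continuous_coe _⟩
  have hι : DenseRange ι := UniformSpace.Completion.denseRange_coe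
  have hι2 : IsUniformInducing ι := UniformSpace.Completion.isUniformInducing_coe _
  let T : FF p M →L[ℝ] X := TQ'.extend ι
  have hT : ∀ x : QQ p M, T (x : FF p M) = TQ x := fun x =>
    ContinuousLinearMap.extend_eq TQ' hι hι2 x
  refine ⟨T, fun x => ?_, fun L hL0 hL z => ?_⟩
  · unfold cl
    rw [hT, hTQmk, bd_el, hg, hfo, sub_zero]
  · have h1 : ∀ z : FF p M, ‖T z‖ ≤ L ^ p * ‖z‖ := by
      intro z
      induction z using UniformSpace.Completion.induction_on with
      | hp =>
        refine isClosed_le ?_ ?_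
        · exact T.continuous.norm
        · exact continuous_const.mul continuous_norm
      | ih a =>
        rw [hT, UniformSpace.Completion.norm_coe]
        exact hTQ L hL0 hL a
    rw [pnorm_le_iff _ (mul_nonneg hL0 (pnorm_nonneg _)),
      Real.mul_rpow hL0 (pnorm_nonneg _), pnorm_rpow]
    exact h1 z

lemma dense_span (o : M) :
    Dense (Submodule.span ℝ (Set.range fun x : M => (cl x o : FF p M)) : Set (FF p M)) := by
  have h1 : ∀ a : Pre p M, ((Submodule.Quotient.mk a : QQ p M) : FF p M) ∈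
      Submodule.span ℝ (Set.range fun x : M => (cl x o : FF p M)) := by
    intro a
    have h2 : a = ∑ q ∈ (show (M × M) →₀ ℝ from a).support,
        (show (M × M) →₀ ℝ from a) q • (el q.1 q.2 : Pre p M) := by
      have h3 := (Finsupp.sum_single (show (M × M) →₀ ℝ from a)).symm
      have h4 : (show (M × M) →₀ ℝ from a).sum Finsupp.single =
          ∑ q ∈ (show (M × M) →₀ ℝ from a).support,
            (show (M × M) →₀ ℝ from a) q • (Finsupp.single q (1 : ℝ)) := by
        unfold Finsupp.sum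
        refine Finset.sum_congr rfl fun q _ => ?_
        rw [Finsupp.smul_single, smul_eq_mul, mul_one]
      exact h3.trans h4
    let ι : QQ p M →ₗ[ℝ] FF p M :=
      { toFun := fun x => (x : FF p M)
        map_add' := fun x y => UniformSpace.Completion.coe_add x y
        map_smul' := fun c x => UniformSpace.Completion.coe_smul c x }
    have h5 : ((Submodule.Quotient.mk a : QQ p M) : FF p M) =
        (ι.comp (Submodule.mkQ (LinearMap.ker (bd p M)))) a := rfl
    rw [h5, h2, map_sum]
    refine Submodule.sum_mem _ fun q _ => ?_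
    rw [map_smul]
    refine Submodule.smul_mem _ _ ?_
    show (cl q.1 q.2 : FF p M) ∈ _
    rw [← cl_sub_cl q.1 q.2 o]
    exact Submodule.sub_mem _ (Submodule.subset_span ⟨q.1, rfl⟩) (Submodule.subset_span ⟨q.2, rfl⟩)
  have h6 : DenseRange (fun x : QQ p M => (x : FF p M)) := UniformSpace.Completion.denseRange_coe
  refine h6.mono ?_
  rintro _ ⟨x, rfl⟩
  obtain ⟨a, rfl⟩ := Submodule.Quotient.mk_surjective _ x
  exact h1 a

/-- **Existence of the Lipschitz free `p`-space.** -/
theorem isLipschitzFree (o : M) : IsLipschitzFree p M o (FF p M) (fun x => cl x o) where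
  banach := ⟨norm_FF_smul, inferInstance⟩
  base := by
    rw [← norm_eq_zero, norm_cl, dist_self, Real.zero_rpow hp.out.1.ne']
  isometric x y := by
    rw [cl_sub_cl]
    unfold pnorm
    rw [norm_cl, ← Real.rpow_mul dist_nonneg, mul_one_div_cancel hp.out.1.ne', Real.rpow_one]
  dense := dense_span o
  lift X _ _ hX f hfo hL := by
    obtain ⟨T, hT1, hT2⟩ := exists_lift o X hX f hfo hL
    refine ⟨T, hT1, fun L hL0 => ⟨hT2 L hL0, fun h x y => ?_⟩, fun T' hT' => ?_⟩
    · have h1 := h (cl x y)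
      have h2 : T (cl x y) = f x - f y := by
        rw [← cl_sub_cl x y o, map_sub, hT1, hT1]
      rw [h2] at h1
      refine h1.trans (le_of_eq ?_)
      unfold pnorm
      rw [norm_cl, ← Real.rpow_mul dist_nonneg, mul_one_div_cancel hp.out.1.ne', Real.rpow_one]
    · refine ContinuousLinearMap.ext_on (dense_span o) ?_
      rintro _ ⟨x, rfl⟩
      exact (hT' x).trans (hT1 x).symm

end

end Pool.Agent.H548R3.PFree
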