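import Mathlib

/-!
`p`-Banach spaces, Lipschitz free `p`-spaces and the approximation property.

A `p`-norm on a real vector space is recorded through its `p`-th power, which is a norm in the sense
of additive groups: `‖z‖` is the `p`-th power of the `p`-norm of `z`.
-/

set_option autoImplicit false

namespace Pool.Agent.H548R3.PFree

/-- The `p`-norm of `z`; the group norm `‖z‖` of Lean is its `p`-th power. -/
noncomputable def pnorm (p : ℝ) {Z : Type} [NormedAddCommGroup Z] (z : Z) : ℝ := ‖z‖ ^ (1 / p)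

/-- `Z` is a `p`-Banach space: the group norm is the `p`-th power of a (homogeneous) `p`-norm, and
`Z` is complete. -/
def IsPBanach (p : ℝ) (Z : Type) [NormedAddCommGroup Z] [Module ℝ Z] : Prop :=
  (∀ (a : ℝ) (z : Z), ‖a • z‖ = |a| ^ p * ‖z‖) ∧ CompleteSpace Z

/-- `(Z, δ)` is the Lipschitz free `p`-space over the metric space `M` with base point `o`. -/
structure IsLipschitzFree (p : ℝ) (M : Type) [MetricSpace M] (o : M)
    (Z : Type) [NormedAddCommGroup Z] [Module ℝ Z] (δ : M → Z) : Prop where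
  banach : IsPBanach p Z
  base : δ o = 0
  isometric : ∀ x y, pnorm p (δ x - δ y) = dist x y
  dense : Dense (Submodule.span ℝ (Set.range δ) : Set Z)
  lift : ∀ (X : Type) [NormedAddCommGroup X] [Module ℝ X], IsPBanach p X →
    ∀ f : M → X, f o = 0 → (∃ L : ℝ, ∀ x y, pnorm p (f x - f y) ≤ L * dist x y) →
    ∃ T : Z →L[ℝ] X, (∀ x, T (δ x) = f x) ∧
      (∀ L : ℝ, 0 ≤ L → ((∀ x y, pnorm p (f x - f y) ≤ L * dist x y) ↔
        ∀ z, pnorm p (T z) ≤ L * pnorm p z)) ∧
      ∀ T' : Z →L[ℝ] X, (∀ x, T' (δ x) = f x) → T' = T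

/-- The approximation property. -/
def HasAP (p : ℝ) (Z : Type) [NormedAddCommGroup Z] [Module ℝ Z] : Prop :=
  ∀ K : Set Z, IsCompact K → ∀ ε : ℝ, 0 < ε →
    ∃ T : Z →L[ℝ] Z, FiniteDimensional ℝ (LinearMap.range (T : Z →ₗ[ℝ] Z)) ∧
      ∀ z ∈ K, pnorm p (T z - z) < ε

end Pool.Agent.H548R3.PFree
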