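import Pool.Agent.H548R3.PConstr

/-!
Multiplication operators on Lipschitz free `p`-spaces; the approximation property for complete
discrete metric spaces.
-/

set_option autoImplicit false
set_option linter.unusedSectionVars false

open Set Filter Topology

namespace Pool.Agent.H548R3.PFree

section

variable {p : ℝ} [hp : Fact (0 < p ∧ p ≤ 1)] {M : Type} [MetricSpace M] {o : M}
  {Z : Type} [NormedAddCommGroup Z] [Module ℝ Z] {δ : M → Z}

lemma norm_delta_sub (h : IsLipschitzFree p M o Z δ) (x y : M) : ‖δ x - δ y‖ = dist x y ^ p := by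
  rw [← h.isometric x y, pnorm_rpow]

lemma norm_delta (h : IsLipschitzFree p M o Z δ) (x : M) : ‖δ x‖ = dist x o ^ p := by
  rw [← norm_delta_sub h x o, h.base, sub_zero]

/-- multiplication operators -/
theorem exists_mult (h : IsLipschitzFree p M o Z δ) (g : M → ℝ) (hg0 : ∀ x, 0 ≤ g x)
    (hg1 : ∀ x, g x ≤ 1) {ℓ ρ : ℝ} (hℓ : 0 ≤ ℓ) (hρ : 0 ≤ ρ)
    (hgℓ : ∀ x y, |g x - g y| ≤ ℓ * dist x y) (hgρ : ∀ x, g x ≠ 0 → dist x o ≤ ρ) :
    ∃ T : Z →L[ℝ] Z, (∀ x, T (δ x) = g x • δ x) ∧ ∀ z, ‖T z‖ ≤ (1 + (ℓ * ρ) ^ p) * ‖z‖ := by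
  have h0 := hp.out.1
  set L : ℝ := (1 + (ℓ * ρ) ^ p) ^ (1 / p) with hL
  have hbase : 0 ≤ (ℓ * ρ) ^ p := Real.rpow_nonneg (mul_nonneg hℓ hρ) _
  have hL0 : 0 ≤ L := Real.rpow_nonneg (by linarith) _
  have hLp : L ^ p = 1 + (ℓ * ρ) ^ p := by
    rw [hL, ← Real.rpow_mul (by linarith), one_div_mul_cancel h0.ne', Real.rpow_one]
  have hs := h.banach.1
  -- asymmetric estimate
  have key : ∀ x y, (g y ≠ 0 ∨ g x = 0) → ‖g x • δ x - g y • δ y‖ ≤ (L * dist x y) ^ p := by
    intro x y hxy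
    rcases hxy with hy | hx
    · have h1 : g x • δ x - g y • δ y = g x • (δ x - δ y) + (g x - g y) • δ y := by
        rw [smul_sub, sub_smul]; abel
      rw [h1]
      refine (norm_add_le _ _).trans ?_
      rw [hs, hs, norm_delta_sub h, norm_delta h, Real.mul_rpow hL0 dist_nonneg, hLp]
      have h2 : |g x| ^ p * dist x y ^ p ≤ 1 * dist x y ^ p := by
        refine mul_le_mul_of_nonneg_right ?_ (Real.rpow_nonneg dist_nonneg _)
        refine Real.rpow_le_one (abs_nonneg _) ?_ h0.le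
        rw [abs_of_nonneg (hg0 x)]
        exact hg1 x
      have h3 : |g x - g y| ^ p * dist y o ^ p ≤ (ℓ * ρ) ^ p * dist x y ^ p := by
        rw [← Real.mul_rpow (abs_nonneg _) dist_nonneg,
          ← Real.mul_rpow (mul_nonneg hℓ hρ) dist_nonneg]
        refine Real.rpow_le_rpow (mul_nonneg (abs_nonneg _) dist_nonneg) ?_ h0.le
        calc |g x - g y| * dist y o ≤ (ℓ * dist x y) * ρ :=
              mul_le_mul (hgℓ x y) (hgρ y hy) dist_nonneg (mul_nonneg hℓ dist_nonneg)
          _ = ℓ * ρ * dist x y := by ring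
      calc _ ≤ 1 * dist x y ^ p + (ℓ * ρ) ^ p * dist x y ^ p := add_le_add h2 h3
        _ = _ := by ring
    · rcases eq_or_ne (g y) 0 with hy | hy
      · rw [hx, hy, zero_smul, zero_smul, sub_zero, norm_zero]
        exact Real.rpow_nonneg (mul_nonneg hL0 dist_nonneg) _
      · -- here `g x = 0`
        have h1 : g x • δ x - g y • δ y = (g x - g y) • δ y := by
          rw [hx, zero_smul, zero_sub, zero_sub, neg_smul]
        rw [h1, hs, norm_delta h, Real.mul_rpow hL0 dist_nonneg, hLp]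
        have h3 : |g x - g y| ^ p * dist y o ^ p ≤ (ℓ * ρ) ^ p * dist x y ^ p := by
          rw [← Real.mul_rpow (abs_nonneg _) dist_nonneg,
            ← Real.mul_rpow (mul_nonneg hℓ hρ) dist_nonneg]
          refine Real.rpow_le_rpow (mul_nonneg (abs_nonneg _) dist_nonneg) ?_ h0.le
          calc |g x - g y| * dist y o ≤ (ℓ * dist x y) * ρ :=
                mul_le_mul (hgℓ x y) (hgρ y hy) dist_nonneg (mul_nonneg hℓ dist_nonneg)
            _ = ℓ * ρ * dist x y := by ring
        have h4 : 0 ≤ dist x y ^ p := Real.rpow_nonneg dist_nonneg _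
        nlinarith
  have key2 : ∀ x y, ‖g x • δ x - g y • δ y‖ ≤ (L * dist x y) ^ p := by
    intro x y
    by_cases hy : g y ≠ 0 ∨ g x = 0
    · exact key x y hy
    · push Not at hy
      rw [norm_sub_rev, dist_comm]
      exact key y x (Or.inr hy.1)
  obtain ⟨T, hT1, hT2, -⟩ := h.lift Z h.banach (fun x => g x • δ x) (by
    show g o • δ o = 0
    rw [h.base, smul_zero]) ⟨L, fun x y => by
      rw [pnorm_le_iff _ (mul_nonneg hL0 dist_nonneg)]
      exact key2 x y⟩
  refine ⟨T, hT1, fun z => ?_⟩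
  have h1 := (hT2 L hL0).1 (fun x y => by
      rw [pnorm_le_iff _ (mul_nonneg hL0 dist_nonneg)]
      exact key2 x y) z
  rw [pnorm_le_iff _ (mul_nonneg hL0 (pnorm_nonneg _)), Real.mul_rpow hL0 (pnorm_nonneg _),
    pnorm_rpow, hLp] at h1
  exact h1

/-- A compact subset of the closure of a span is close to the span of a finite set. -/
lemma exists_finite_approx (S : Set M) (K : Set Z) (hK : IsCompact K)
    (hKS : K ⊆ closure (Submodule.span ℝ (δ '' S) : Set Z)) {η : ℝ} (hη : 0 < η) :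
    ∃ A : Finset M, (A : Set M) ⊆ S ∧ ∀ z ∈ K, ∃ l : M →₀ ℝ, (l.support ⊆ A) ∧
      ‖z - l.sum (fun x c => c • δ x)‖ < η := by
  classical
  let W : Set Z := (Submodule.span ℝ (δ '' S) : Set Z)
  obtain ⟨t, ht⟩ := hK.elim_finite_subcover (fun w : W => Metric.ball (w : Z) η)
    (fun w => Metric.isOpen_ball) (fun z hz => by
      obtain ⟨w, hw, hzw⟩ := Metric.mem_closure_iff.1 (hKS hz) η hη
      exact mem_iUnion.2 ⟨⟨w, hw⟩, hzw⟩)
  have hex : ∀ w : W, ∃ l : M →₀ ℝ, (l.support : Set M) ⊆ S ∧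
      l.sum (fun x c => c • δ x) = w := by
    intro w
    have h1 : (w : Z) ∈ Submodule.span ℝ (δ '' S) := w.2
    rw [Finsupp.mem_span_image_iff_linearCombination] at h1
    obtain ⟨l, hl, hl2⟩ := h1
    exact ⟨l, hl, hl2⟩
  choose l hl1 hl2 using hex
  refine ⟨t.biUnion fun w => (l w).support, ?_, fun z hz => ?_⟩
  · intro x hx
    rw [Finset.mem_coe, Finset.mem_biUnion] at hx
    obtain ⟨w, -, hx⟩ := hx
    exact hl1 w hx
  · obtain ⟨w, hw, hzw⟩ := mem_iUnion₂.1 (ht hz)
    refine ⟨l w, Finset.subset_biUnion_of_mem (fun w => (l w).support) hw, ?_⟩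
    rw [hl2, ← dist_eq_norm]
    exact hzw

omit hp in
lemma abs_max_zero (a b : ℝ) : |max 0 a - max 0 b| ≤ |a - b| := by
  rw [max_comm 0 a, max_comm 0 b]
  exact abs_max_sub_max_le_abs a b 0

/-- the tent function of a finite set -/
noncomputable def tent (A : Finset M) (r : ℝ) (x : M) : ℝ :=
  max 0 (1 - Metric.infDist x (A : Set M) / r)

lemma tent_nonneg (A : Finset M) (r : ℝ) (x : M) : 0 ≤ tent A r x := le_max_left _ _

lemma tent_le_one (A : Finset M) {r : ℝ} (hr : 0 < r) (x : M) : tent A r x ≤ 1 := by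
  refine max_le zero_le_one ?_
  have : 0 ≤ Metric.infDist x (A : Set M) / r := div_nonneg Metric.infDist_nonneg hr.le
  linarith

lemma tent_lip (A : Finset M) {r : ℝ} (hr : 0 < r) (x y : M) :
    |tent A r x - tent A r y| ≤ (1 / r) * dist x y := by
  unfold tent
  refine (abs_max_zero _ _).trans ?_
  have h1 : (1 - Metric.infDist x (A : Set M) / r) - (1 - Metric.infDist y (A : Set M) / r) =
      -((Metric.infDist x (A : Set M) - Metric.infDist y (A : Set M)) / r) := by ring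
  rw [h1, abs_neg, abs_div, abs_of_pos hr, one_div, inv_mul_eq_div]
  refine div_le_div_of_nonneg_right ?_ hr.le
  have h2 := (Metric.lipschitz_infDist_pt (A : Set M)).dist_le_mul x y
  rw [NNReal.coe_one, one_mul, Real.dist_eq] at h2
  exact h2

lemma tent_eq_one {A : Finset M} {r : ℝ} {x : M} (hx : x ∈ A) : tent A r x = 1 := by
  unfold tent
  rw [Metric.infDist_zero_of_mem (Finset.mem_coe.2 hx)]
  simp

lemma exists_of_tent_ne {A : Finset M} (hA : A.Nonempty) {r : ℝ} (hr : 0 < r) {x : M}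
    (hx : tent A r x ≠ 0) : ∃ a ∈ A, dist x a < r := by
  have h1 : Metric.infDist x (A : Set M) < r := by
    by_contra hcon
    push Not at hcon
    apply hx
    unfold tent
    rw [max_eq_left]
    have : 1 ≤ Metric.infDist x (A : Set M) / r := by rwa [one_le_div hr]
    linarith
  exact (Metric.infDist_lt_iff (Finset.coe_nonempty.2 hA)).1 h1

/-- one step of the construction -/
theorem step (h : IsLipschitzFree p M o Z δ) (K : Set Z) (hK : IsCompact K) (g : M → ℝ)
    (T : Z →L[ℝ] Z) (hT : ∀ x, T (δ x) = g x • δ x) {R : ℝ} (hR0 : 0 ≤ R)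
    (hR : ∀ x, g x ≠ 0 → dist x o ≤ R) {r ε : ℝ} (hr : 0 < r) (hε : 0 < ε) :
    ∃ (g' : M → ℝ) (T' : Z →L[ℝ] Z), (∀ x, T' (δ x) = g' x • δ x) ∧
      (∀ x, g' x ≠ 0 → g x ≠ 0) ∧ (∃ A : Finset M, ∀ x, g' x ≠ 0 → ∃ a ∈ A, dist x a < r) ∧
      ∀ z ∈ K, ‖T' z - T z‖ < ε := by
  set S : Set M := {x | g x ≠ 0} with hS
  have hcl : ∀ z, T z ∈ closure (Submodule.span ℝ (δ '' S) : Set Z) := by
    intro z
    have h1 : ∀ w ∈ (Submodule.span ℝ (Set.range δ) : Set Z),
        T w ∈ (Submodule.span ℝ (δ '' S) : Set Z) := by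
      intro w hw
      have h2 : (Submodule.span ℝ (Set.range δ)).map (T : Z →ₗ[ℝ] Z) ≤
          Submodule.span ℝ (δ '' S) := by
        rw [Submodule.map_span, Submodule.span_le]
        rintro _ ⟨_, ⟨x, rfl⟩, rfl⟩
        show T (δ x) ∈ Submodule.span ℝ (δ '' S)
        rw [hT]
        by_cases hx : g x = 0
        · rw [hx, zero_smul]; exact Submodule.zero_mem _
        · exact Submodule.smul_mem _ _ (Submodule.subset_span ⟨x, hx, rfl⟩)
      exact h2 ⟨w, hw, rfl⟩
    exact map_mem_closure T.continuous (h.dense z) h1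
  set C : ℝ := 1 + ((1 / r) * (R + r)) ^ p with hC
  have hC0 : 0 < C := by positivity
  set η : ℝ := ε / (C + 2) with hη
  have hη0 : 0 < η := by positivity
  obtain ⟨A, hAS, hA⟩ := exists_finite_approx (δ := δ) S (T '' K) (hK.image T.continuous) (by
    rintro _ ⟨z, -, rfl⟩
    exact hcl z) hη0
  have hηε : (C + 1) * η < ε := by
    rw [hη, mul_div_assoc', div_lt_iff₀ (by positivity)]
    nlinarith
  rcases A.eq_empty_or_nonempty with rfl | hne
  · refine ⟨fun _ => 0, 0, fun x => ?_, fun x hx => absurd rfl hx, ⟨∅, fun x hx => absurd rfl hx⟩,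
      fun z hz => ?_⟩
    · rw [zero_smul]; rfl
    · obtain ⟨l, hl1, hl2⟩ := hA (T z) ⟨z, hz, rfl⟩
      have hl0 : l = 0 := Finsupp.support_eq_empty.1 (Finset.subset_empty.1 hl1)
      rw [hl0, Finsupp.sum_zero_index, sub_zero] at hl2
      show ‖(0 : Z) - T z‖ < ε
      rw [zero_sub, norm_neg]
      refine hl2.trans (lt_of_le_of_lt ?_ hηε)
      nlinarith
  · obtain ⟨T₁, hT₁, hT₁n⟩ := exists_mult h (tent A r) (tent_nonneg A r) (tent_le_one A hr)
      (one_div_pos.2 hr).le (add_nonneg hR0 hr.le) (tent_lip A hr) (fun x hx => by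
        obtain ⟨a, ha, hxa⟩ := exists_of_tent_ne hne hr hx
        have h2 := hR a (hAS ha)
        have h3 := dist_triangle x a o
        linarith)
    refine ⟨fun x => tent A r x * g x, T₁.comp T, fun x => ?_, fun x hx hgx => ?_,
      ⟨A, fun x hx => ?_⟩, fun z hz => ?_⟩
    · show T₁ (T (δ x)) = _
      rw [hT, map_smul, hT₁, smul_smul, mul_comm]
    · apply hx
      show tent A r x * g x = 0
      rw [hgx, mul_zero]
    · exact exists_of_tent_ne hne hr (left_ne_zero_of_mul hx)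
    · obtain ⟨l, hl1, hl2⟩ := hA (T z) ⟨z, hz, rfl⟩
      set w : Z := l.sum (fun x c => c • δ x) with hw
      have hTw : T₁ w = w := by
        rw [hw]
        unfold Finsupp.sum
        rw [map_sum]
        refine Finset.sum_congr rfl fun x hx => ?_
        rw [map_smul, hT₁, tent_eq_one (hl1 hx), one_smul]
      have h1 : (T₁.comp T) z - T z = T₁ (T z - w) - (T z - w) := by
        rw [map_sub, hTw]
        show T₁ (T z) - T z = _
        abel
      rw [h1]
      refine (norm_sub_le _ _).trans_lt ?_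
      have h2 := hT₁n (T z - w)
      have h3 : ‖T₁ (T z - w)‖ + ‖T z - w‖ ≤ (C + 1) * ‖T z - w‖ := by
        rw [add_mul, one_mul]
        exact add_le_add h2 le_rfl
      refine h3.trans_lt (lt_of_le_of_lt ?_ hηε)
      exact mul_le_mul_of_nonneg_left hl2.le (by positivity)

/-- the initial bounded cutoff -/
theorem initial (h : IsLipschitzFree p M o Z δ) (K : Set Z) (hK : IsCompact K) {ε : ℝ}
    (hε : 0 < ε) : ∃ (g : M → ℝ) (T : Z →L[ℝ] Z) (R : ℝ), 0 ≤ R ∧ (∀ x, T (δ x) = g x • δ x) ∧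
      (∀ x, g x ≠ 0 → dist x o ≤ R) ∧ ∀ z ∈ K, ‖T z - z‖ < ε := by
  set C : ℝ := 1 + (2 : ℝ) ^ p with hC
  have hC0 : 0 < C := by positivity
  set η : ℝ := ε / (C + 2) with hη
  have hη0 : 0 < η := by positivity
  have hηε : (C + 1) * η < ε := by
    rw [hη, mul_div_assoc', div_lt_iff₀ (by positivity)]
    nlinarith
  obtain ⟨A, -, hA⟩ := exists_finite_approx (δ := δ) Set.univ K hK (by
    rw [image_univ]
    intro z _
    exact h.dense z) hη0
  set R : ℝ := 1 + ∑ a ∈ A, dist a o with hR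
  have hsum : 0 ≤ ∑ a ∈ A, dist a o := Finset.sum_nonneg fun _ _ => dist_nonneg
  have hR0 : 0 < R := by linarith
  let g : M → ℝ := fun x => max 0 (min 1 (2 - dist x o / R))
  have hg1 : ∀ x, g x ≤ 1 := fun x => max_le zero_le_one (min_le_left _ _)
  obtain ⟨T, hT, hTn⟩ := exists_mult h g (fun x => le_max_left _ _) hg1
    (ℓ := 1 / R) (ρ := 2 * R) (one_div_pos.2 hR0).le (by positivity) (fun x y => by
      refine (abs_max_zero _ _).trans ?_
      have h0 : |min 1 (2 - dist x o / R) - min 1 (2 - dist y o / R)| ≤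
          |(2 - dist x o / R) - (2 - dist y o / R)| := by
        rw [min_comm 1, min_comm 1]
        have := abs_min_sub_min_le_max (2 - dist x o / R) 1 (2 - dist y o / R) 1
        rwa [sub_self, abs_zero, max_eq_left (abs_nonneg _)] at this
      refine h0.trans ?_
      have h1 : (2 - dist x o / R) - (2 - dist y o / R) = -((dist x o - dist y o) / R) := by ring
      rw [h1, abs_neg, abs_div, abs_of_pos hR0, one_div, inv_mul_eq_div]
      exact div_le_div_of_nonneg_right (abs_dist_sub_le _ _ _) hR0.le) (fun x hx => by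
      by_contra hcon
      push Not at hcon
      apply hx
      show max 0 (min 1 (2 - dist x o / R)) = 0
      rw [max_eq_left]
      refine (min_le_right _ _).trans ?_
      have : 2 ≤ dist x o / R := by
        rw [le_div_iff₀ hR0]
        exact hcon.le
      linarith)
  refine ⟨g, T, 2 * R, by positivity, hT, fun x hx => ?_, fun z hz => ?_⟩
  · by_contra hcon
    push Not at hcon
    apply hx
    show max 0 (min 1 (2 - dist x o / R)) = 0
    rw [max_eq_left]
    refine (min_le_right _ _).trans ?_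
    have : 2 ≤ dist x o / R := by
      rw [le_div_iff₀ hR0]
      exact hcon.le
    linarith
  · obtain ⟨l, hl1, hl2⟩ := hA z hz
    set w : Z := l.sum (fun x c => c • δ x) with hw
    have hg : ∀ x ∈ A, g x = 1 := by
      intro x hx
      have h1 : dist x o ≤ ∑ a ∈ A, dist a o :=
        Finset.single_le_sum (f := fun a => dist a o) (fun _ _ => dist_nonneg) hx
      have h2 : dist x o / R ≤ 1 := by
        rw [div_le_one hR0]
        linarith
      show max 0 (min 1 (2 - dist x o / R)) = 1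
      rw [min_eq_left (by linarith), max_eq_right zero_le_one]
    have hTw : T w = w := by
      rw [hw]
      unfold Finsupp.sum
      rw [map_sum]
      refine Finset.sum_congr rfl fun x hx => ?_
      rw [map_smul, hT, hg x (hl1 hx), one_smul]
    have h1 : T z - z = T (z - w) - (z - w) := by
      rw [map_sub, hTw]
      abel
    rw [h1]
    refine (norm_sub_le _ _).trans_lt ?_
    have h2 := hTn (z - w)
    have h4 : (1 / R) * (2 * R) = 2 := by field_simp
    rw [h4] at h2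
    have h3 : ‖T (z - w)‖ + ‖z - w‖ ≤ (C + 1) * ‖z - w‖ := by
      rw [add_mul, one_mul]
      exact add_le_add h2 le_rfl
    refine h3.trans_lt (lt_of_le_of_lt ?_ hηε)
    exact mul_le_mul_of_nonneg_left hl2.le (by positivity)

/-- nested sets shrinking in the sense of noncompactness in a complete discrete space -/
theorem exists_finite_of_nested [CompleteSpace M]
    (hM : ∀ x : M, ∃ r : ℝ, 0 < r ∧ ∀ y : M, dist y x < r → y = x) (A : ℕ → Set M)
    (hA : ∀ n, A (n + 1) ⊆ A n)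
    (hcov : ∀ r : ℝ, 0 < r → ∃ (n : ℕ) (F : Finset M), ∀ x ∈ A n, ∃ a ∈ F, dist x a < r) :
    ∃ n, (A n).Finite := by
  by_contra hcon
  push Not at hcon
  have hanti : Antitone A := antitone_nat_of_succ_le hA
  have hne : NeBot (⨅ n, (cofinite ⊓ 𝓟 (A n))) := by
    refine iInf_neBot_of_directed' ?_ fun n => cofinite_inf_principal_neBot_iff.2 (hcon n)
    intro m n
    refine ⟨max m n, ?_, ?_⟩
    · exact inf_le_inf le_rfl (principal_mono.2 (hanti (le_max_left _ _)))
    · exact inf_le_inf le_rfl (principal_mono.2 (hanti (le_max_right _ _)))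
  set U := Ultrafilter.of (⨅ n, (cofinite ⊓ 𝓟 (A n))) with hU
  have hUle : (U : Filter M) ≤ ⨅ n, (cofinite ⊓ 𝓟 (A n)) := Ultrafilter.of_le _
  have hUA : ∀ n, A n ∈ U := fun n =>
    (hUle.trans ((iInf_le _ n).trans inf_le_right)) (mem_principal_self _)
  have hUc : (U : Filter M) ≤ cofinite := hUle.trans ((iInf_le _ 0).trans inf_le_left)
  have hcauchy : Cauchy (U : Filter M) := by
    rw [Metric.cauchy_iff]
    refine ⟨U.neBot, fun ε hε => ?_⟩
    obtain ⟨n, F, hF⟩ := hcov (ε / 2) (by positivity)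
    have h1 : (⋃ a ∈ (F : Set M), Metric.ball a (ε / 2)) ∈ U := by
      refine Filter.mem_of_superset (hUA n) fun x hx => ?_
      obtain ⟨a, ha, hxa⟩ := hF x hx
      exact mem_iUnion₂.2 ⟨a, ha, hxa⟩
    rw [Ultrafilter.finite_biUnion_mem_iff F.finite_toSet] at h1
    obtain ⟨a, -, ha⟩ := h1
    refine ⟨_, ha, fun x hx y hy => ?_⟩
    have h2 := dist_triangle_right x y a
    have h3 : dist x a < ε / 2 := hx
    have h4 : dist y a < ε / 2 := hy
    linarith
  obtain ⟨x, hx⟩ := CompleteSpace.complete hcauchy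
  obtain ⟨r, hr, hxr⟩ := hM x
  have h1 : Metric.ball x r ∈ U := hx (Metric.ball_mem_nhds x hr)
  have h2 : ({x} : Set M)ᶜ ∈ U := hUc (by
    rw [mem_cofinite, compl_compl]
    exact finite_singleton x)
  have h3 := U.neBot.nonempty_of_mem (Filter.inter_mem h1 h2)
  obtain ⟨y, hy1, hy2⟩ := h3
  exact hy2 (hxr y hy1)

omit hp in
lemma continuousSMul_of (h0 : 0 < p) (hZ : ∀ (a : ℝ) (z : Z), ‖a • z‖ = |a| ^ p * ‖z‖) :
    ContinuousSMul ℝ Z := by
  refine ⟨?_⟩
  rw [continuous_iff_continuousAt]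
  rintro ⟨a, z⟩
  rw [ContinuousAt, tendsto_iff_norm_sub_tendsto_zero]
  have h1 : Tendsto (fun q : ℝ × Z => |q.1| ^ p * ‖q.2 - z‖ + |q.1 - a| ^ p * ‖z‖) (𝓝 (a, z))
      (𝓝 (|a| ^ p * ‖z - z‖ + |a - a| ^ p * ‖z‖)) := by
    have hcont : Continuous fun q : ℝ × Z => |q.1| ^ p * ‖q.2 - z‖ + |q.1 - a| ^ p * ‖z‖ := by
      have h2 : Continuous fun q : ℝ × Z => |q.1| ^ p :=
        Continuous.rpow_const (by fun_prop) fun _ => Or.inr h0.le
      have h3 : Continuous fun q : ℝ × Z => |q.1 - a| ^ p :=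
        Continuous.rpow_const (by fun_prop) fun _ => Or.inr h0.le
      fun_prop
    exact hcont.tendsto (a, z)
  rw [sub_self, norm_zero, mul_zero, sub_self, abs_zero, Real.zero_rpow h0.ne', zero_mul,
    add_zero] at h1
  refine squeeze_zero (fun _ => norm_nonneg _) (fun q => ?_) h1
  have h2 : q.1 • q.2 - a • z = q.1 • (q.2 - z) + (q.1 - a) • z := by
    rw [smul_sub, sub_smul]; abel
  simp only
  rw [h2]
  refine (norm_add_le _ _).trans ?_
  rw [hZ, hZ]

/-- **AP for complete discrete metric spaces.** -/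
theorem hasAP_of_complete_discrete [CompleteSpace M]
    (hM : ∀ x : M, ∃ r : ℝ, 0 < r ∧ ∀ y : M, dist y x < r → y = x)
    (h : IsLipschitzFree p M o Z δ) : HasAP p Z := by
  have h0 := hp.out.1
  intro K hK ε hε
  set ε' : ℝ := ε ^ p with hε'
  have hε'0 : 0 < ε' := Real.rpow_pos_of_pos hε _
  obtain ⟨g₀, T₀, R, hR0, hT₀, hg₀, hK₀⟩ := initial h K hK (half_pos hε'0)
  let P : (M → ℝ) × (Z →L[ℝ] Z) → Prop := fun s =>
    (∀ x, s.2 (δ x) = s.1 x • δ x) ∧ ∀ x, s.1 x ≠ 0 → dist x o ≤ R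
  have hstep : ∀ (n : ℕ) (s : {s // P s}), ∃ s' : {s // P s},
      (∀ x, s'.1.1 x ≠ 0 → s.1.1 x ≠ 0) ∧
      (∃ A : Finset M, ∀ x, s'.1.1 x ≠ 0 → ∃ a ∈ A, dist x a < 1 / ((n : ℝ) + 1)) ∧
      ∀ z ∈ K, ‖s'.1.2 z - s.1.2 z‖ < ε' * (1 / 2) ^ (n + 2) := by
    rintro n ⟨⟨g, T⟩, hT, hg⟩
    obtain ⟨g', T', h1, h2, h3, h4⟩ := step h K hK g T hT hR0 hg
      (r := 1 / ((n : ℝ) + 1)) (ε := ε' * (1 / 2) ^ (n + 2)) (by positivity) (by positivity)
    exact ⟨⟨⟨g', T'⟩, h1, fun x hx => hg x (h2 x hx)⟩, h2, h3, h4⟩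
  choose nxt hn1 hn2 hn3 using hstep
  let S : ℕ → {s // P s} := fun n => Nat.rec ⟨⟨g₀, T₀⟩, hT₀, hg₀⟩ nxt n
  have hS0 : S 0 = ⟨⟨g₀, T₀⟩, hT₀, hg₀⟩ := rfl
  have hSs : ∀ n, S (n + 1) = nxt n (S n) := fun n => rfl
  obtain ⟨n, hn⟩ := exists_finite_of_nested hM (fun n => {x | (S n).1.1 x ≠ 0}) (fun n x hx => by
    have h1 : (nxt n (S n)).1.1 x ≠ 0 := hx
    exact hn1 n (S n) x h1) (fun r hr => by
    obtain ⟨n, hn⟩ := exists_nat_one_div_lt hr
    obtain ⟨A, hA⟩ := hn2 n (S n)
    refine ⟨n + 1, A, fun x hx => ?_⟩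
    obtain ⟨a, ha, hxa⟩ := hA x hx
    exact ⟨a, ha, hxa.trans hn⟩)
  have hbound : ∀ n, ∀ z ∈ K, ‖(S n).1.2 z - z‖ < ε' * (1 - (1 / 2) ^ (n + 1)) := by
    intro n
    induction n with
    | zero =>
      intro z hz
      have h1 := hK₀ z hz
      have h2 : (S 0).1.2 = T₀ := rfl
      rw [h2]
      refine h1.trans_le (le_of_eq ?_)
      norm_num
      ring
    | succ n ih =>
      intro z hz
      have h1 := ih z hz
      have h2 := hn3 n (S n) z hz
      rw [← hSs] at h2
      have h3 : (S (n + 1)).1.2 z - z = ((S (n + 1)).1.2 z - (S n).1.2 z) + ((S n).1.2 z - z) := by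
        abel
      rw [h3]
      refine (norm_add_le _ _).trans_lt ?_
      refine (add_lt_add h2 h1).trans_le (le_of_eq ?_)
      ring
  refine ⟨(S n).1.2, ?_, fun z hz => ?_⟩
  · have hcs : ContinuousSMul ℝ Z := continuousSMul_of h0 h.banach.1
    have hfin : (δ '' {x | (S n).1.1 x ≠ 0}).Finite := hn.image δ
    have hfd : FiniteDimensional ℝ (Submodule.span ℝ (δ '' {x | (S n).1.1 x ≠ 0})) :=
      FiniteDimensional.span_of_finite ℝ hfin
    have hclosed : IsClosed (Submodule.span ℝ (δ '' {x | (S n).1.1 x ≠ 0}) : Set Z) :=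
      Submodule.closed_of_finiteDimensional _
    have h1 : ∀ z, (S n).1.2 z ∈ Submodule.span ℝ (δ '' {x | (S n).1.1 x ≠ 0}) := by
      intro z
      have h2 : ∀ w ∈ (Submodule.span ℝ (Set.range δ) : Set Z),
          (S n).1.2 w ∈ (Submodule.span ℝ (δ '' {x | (S n).1.1 x ≠ 0}) : Set Z) := by
        intro w hw
        have h3 : (Submodule.span ℝ (Set.range δ)).map ((S n).1.2 : Z →ₗ[ℝ] Z) ≤
            Submodule.span ℝ (δ '' {x | (S n).1.1 x ≠ 0}) := by
          rw [Submodule.map_span, Submodule.span_le]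
          rintro _ ⟨_, ⟨x, rfl⟩, rfl⟩
          show (S n).1.2 (δ x) ∈ Submodule.span ℝ (δ '' {x | (S n).1.1 x ≠ 0})
          rw [(S n).2.1]
          by_cases hx : (S n).1.1 x = 0
          · rw [hx, zero_smul]; exact Submodule.zero_mem _
          · exact Submodule.smul_mem _ _ (Submodule.subset_span ⟨x, hx, rfl⟩)
        exact h3 ⟨w, hw, rfl⟩
      have h4 := map_mem_closure (S n).1.2.continuous (h.dense z) h2
      rwa [hclosed.closure_eq] at h4
    have h2 : LinearMap.range ((S n).1.2 : Z →ₗ[ℝ] Z) ≤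
        Submodule.span ℝ (δ '' {x | (S n).1.1 x ≠ 0}) := by
      rintro _ ⟨z, rfl⟩
      exact h1 z
    exact Submodule.finiteDimensional_of_le h2
  · have h1 : ‖(S n).1.2 z - z‖ < ε' := by
      refine (hbound n z hz).trans_le ?_
      have h2 : (0 : ℝ) < (1 / 2) ^ (n + 1) := by positivity
      nlinarith
    show ‖(S n).1.2 z - z‖ ^ (1 / p) < ε
    have h3 : (ε ^ p) ^ (1 / p) = ε := by
      rw [← Real.rpow_mul hε.le, mul_one_div_cancel h0.ne', Real.rpow_one]
    rw [← h3]
    exact Real.rpow_lt_rpow (norm_nonneg _) h1 (one_div_pos.2 h0)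

end

end Pool.Agent.H548R3.PFree
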