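import Mathlib

/-!
If every functional on a real normed space attains its norm on the closed unit ball, then every
bounded sequence of functionals has a pointwise convergent subsequence (after Pryce's proof of
James' theorem).
-/

set_option autoImplicit false

open Set Filter Topology

namespace Pool.Agent.H548R3.Pryce

variable {E : Type*} [NormedAddCommGroup E] [NormedSpace ℝ E]

/-- `φ` lies between the lower and the upper limits of `f` along `L`. -/
def Btw (f : ℕ → StrongDual ℝ E) (L : Filter ℕ) (φ : StrongDual ℝ E) : Prop :=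
  ∀ x, ∀ ε : ℝ, 0 < ε → ∃ᶠ k in L, φ x < f k x + ε

lemma Btw.mono {f : ℕ → StrongDual ℝ E} {L L' : Filter ℕ} (h : L' ≤ L) {φ : StrongDual ℝ E}
    (hφ : Btw f L' φ) : Btw f L φ := fun x ε hε => (hφ x ε hε).filter_mono h

/-- limits along ultrafilters -/
lemma exists_ultralimit (f : ℕ → StrongDual ℝ E) {C : ℝ} (hf : ∀ k, ‖f k‖ ≤ C)
    (U : Ultrafilter ℕ) :
    ∃ φ : StrongDual ℝ E, ‖φ‖ ≤ C ∧ ∀ x, Tendsto (fun k => f k x) U (𝓝 (φ x)) := by
  have hK : IsCompact (WeakDual.toStrongDual ⁻¹' Metric.closedBall (0 : StrongDual ℝ E) C) :=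
    WeakDual.isCompact_closedBall (0 : StrongDual ℝ E) C
  let F : ℕ → WeakDual ℝ E := fun k => StrongDual.toWeakDual (f k)
  have hF : ∀ k, F k ∈ WeakDual.toStrongDual ⁻¹' Metric.closedBall (0 : StrongDual ℝ E) C := by
    intro k
    have : WeakDual.toStrongDual (F k) = f k := rfl
    rw [mem_preimage, this, mem_closedBall_zero_iff]
    exact hf k
  obtain ⟨a, ha, hUa⟩ := hK.ultrafilter_le_nhds (U.map F) (by
    rw [le_principal_iff]
    exact Filter.mem_map.2 (Filter.univ_mem' hF))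
  refine ⟨WeakDual.toStrongDual a, by simpa using ha, fun x => ?_⟩
  have h1 : Tendsto (fun b : WeakDual ℝ E => b x) (𝓝 a) (𝓝 (a x)) :=
    (WeakDual.eval_continuous x).tendsto a
  have h2 : Tendsto F U (𝓝 a) := hUa
  exact h1.comp h2

lemma Btw_of_ultralimit {f : ℕ → StrongDual ℝ E} {L : Filter ℕ} (U : Ultrafilter ℕ)
    (hU : (U : Filter ℕ) ≤ L) {φ : StrongDual ℝ E}
    (hφ : ∀ x, Tendsto (fun k => f k x) U (𝓝 (φ x))) : Btw f L φ := by
  intro x ε hε
  have h1 : ∀ᶠ k in (U : Filter ℕ), φ x < f k x + ε := by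
    have h2 := (hφ x).eventually (lt_mem_nhds (show φ x - ε < φ x by linarith))
    exact h2.mono fun k hk => by linarith
  exact h1.frequently.filter_mono hU

lemma exists_Btw (f : ℕ → StrongDual ℝ E) {C : ℝ} (hf : ∀ k, ‖f k‖ ≤ C) (L : Filter ℕ)
    [L.NeBot] : ∃ φ, Btw f L φ := by
  obtain ⟨φ, -, hφ⟩ := exists_ultralimit f hf (Ultrafilter.of L)
  exact ⟨φ, Btw_of_ultralimit _ (Ultrafilter.of_le L) hφ⟩

lemma Btw.norm_le {f : ℕ → StrongDual ℝ E} {C : ℝ} (hf : ∀ k, ‖f k‖ ≤ C) {L : Filter ℕ}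
    {φ : StrongDual ℝ E} (hφ : Btw f L φ) : ‖φ‖ ≤ C := by
  have hC : 0 ≤ C := (norm_nonneg _).trans (hf 0)
  have key : ∀ x, φ x ≤ C * ‖x‖ := by
    intro x
    refine le_of_forall_pos_le_add fun ε hε => ?_
    obtain ⟨k, hk⟩ := (hφ x ε hε).exists
    have h1 : f k x ≤ C * ‖x‖ :=
      (le_abs_self _).trans (((f k).le_opNorm x).trans
        (mul_le_mul_of_nonneg_right (hf k) (norm_nonneg x)))
    linarith
  refine φ.opNorm_le_bound hC fun x => ?_
  rw [Real.norm_eq_abs, abs_le]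
  constructor
  · have := key (-x)
    rw [map_neg, norm_neg] at this
    linarith
  · exact key x

/-- nearly norming points for real functionals -/
lemma exists_near (g : StrongDual ℝ E) {ε : ℝ} (hε : 0 < ε) : ∃ x : E, ‖x‖ ≤ 1 ∧ ‖g‖ - ε < g x := by
  by_contra hcon
  push Not at hcon
  have h1 : ‖g‖ ≤ max (‖g‖ - ε) 0 := by
    refine g.opNorm_le_of_unit_norm (le_max_right _ _) fun x hx => ?_
    rw [Real.norm_eq_abs, abs_le]
    constructor
    · have := hcon (-x) (by rw [norm_neg]; exact hx.le)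
      rw [map_neg] at this
      have h2 := le_max_left (‖g‖ - ε) 0
      linarith
    · exact (hcon x hx.le).trans (le_max_left _ _)
  have h3 := hcon 0 (by simp)
  rw [map_zero] at h3
  rcases max_cases (‖g‖ - ε) 0 with ⟨h, _⟩ | ⟨h, h'⟩
  · rw [h] at h1; linarith
  · linarith

lemma apply_le_norm (g : StrongDual ℝ E) {x : E} (hx : ‖x‖ ≤ 1) : g x ≤ ‖g‖ :=
  (le_abs_self _).trans (((g.le_opNorm x).trans (mul_le_of_le_one_right (norm_nonneg _) hx)))

/-- one stabilization step -/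
lemma step (f : ℕ → StrongDual ℝ E) {C : ℝ} (hf : ∀ k, ‖f k‖ ≤ C) (L : Filter ℕ) [L.NeBot]
    (h : StrongDual ℝ E) {ε : ℝ} (hε : 0 < ε) :
    ∃ s : Set ℕ, (L ⊓ 𝓟 s).NeBot ∧ ∀ L' : Filter ℕ, L' ≤ L ⊓ 𝓟 s → ∀ φ ψ : StrongDual ℝ E,
      Btw f L' φ → Btw f L' ψ → ‖h - ψ‖ ≤ ‖h - φ‖ + ε := by
  set T : Set ℝ := {t | ∃ ψ, Btw f L ψ ∧ t = ‖h - ψ‖} with hT
  have hTn : T.Nonempty := by
    obtain ⟨φ, hφ⟩ := exists_Btw f hf L
    exact ⟨_, φ, hφ, rfl⟩
  have hTb : BddAbove T := by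
    refine ⟨‖h‖ + C, ?_⟩
    rintro t ⟨ψ, hψ, rfl⟩
    exact (norm_sub_le _ _).trans (add_le_add le_rfl (hψ.norm_le hf))
  obtain ⟨t, ⟨ψ₀, hψ₀, rfl⟩, ht⟩ := exists_lt_of_lt_csSup hTn
    (show sSup T - ε / 3 < sSup T by linarith)
  obtain ⟨x, hx, hxn⟩ := exists_near (h - ψ₀) (show 0 < ε / 3 by positivity)
  have hfr : ∃ᶠ k in L, f k x < ψ₀ x + ε / 3 := by
    refine (hψ₀ (-x) (ε / 3) (by positivity)).mono fun k hk => ?_
    rw [map_neg, map_neg] at hk
    linarith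
  refine ⟨{k | f k x < ψ₀ x + ε / 3}, frequently_mem_iff_neBot.1 hfr, fun L' hL' φ ψ hφ hψ => ?_⟩
  have h1 : φ x ≤ ψ₀ x + ε / 3 := by
    refine le_of_forall_pos_le_add fun δ hδ => ?_
    have h2 : ∀ᶠ k in L', f k x < ψ₀ x + ε / 3 := by
      have : {k | f k x < ψ₀ x + ε / 3} ∈ L' :=
        hL' (mem_inf_of_right (mem_principal_self _))
      exact this
    obtain ⟨k, hk1, hk2⟩ := ((hφ x δ hδ).and_eventually h2).exists
    linarith
  have h3 : ‖h - ψ‖ ≤ sSup T :=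
    le_csSup hTb ⟨ψ, hψ.mono (hL'.trans inf_le_left), rfl⟩
  have h4 : (h - φ) x ≤ ‖h - φ‖ := apply_le_norm _ hx
  rw [sub_apply] at h4 hxn
  linarith

/-- stabilization for countably many functionals -/
lemma stabilize (f : ℕ → StrongDual ℝ E) {C : ℝ} (hf : ∀ k, ‖f k‖ ≤ C)
    (d : ℕ → StrongDual ℝ E) :
    ∃ L : Filter ℕ, L.NeBot ∧ L.IsCountablyGenerated ∧ L ≤ atTop ∧
      ∀ j, ∀ φ ψ : StrongDual ℝ E, Btw f L φ → Btw f L ψ → ‖d j - ψ‖ ≤ ‖d j - φ‖ := by
  -- the type of good filters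
  let G : Type := {L : Filter ℕ // L.NeBot ∧ L.IsCountablyGenerated ∧ L ≤ atTop}
  have hstep : ∀ (m : ℕ) (L : G), ∃ L' : G, L'.1 ≤ L.1 ∧ ∀ L'' : Filter ℕ, L'' ≤ L'.1 →
      ∀ φ ψ : StrongDual ℝ E, Btw f L'' φ → Btw f L'' ψ →
        ‖d (m.unpair.1) - ψ‖ ≤ ‖d (m.unpair.1) - φ‖ + 1 / ((m.unpair.2 : ℝ) + 1) := by
    intro m L
    have i1 := L.2.1
    have i2 := L.2.2.1
    obtain ⟨s, hs, hs'⟩ := step f hf L.1 (d (m.unpair.1))
      (show (0:ℝ) < 1 / ((m.unpair.2 : ℝ) + 1) by positivity)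
    exact ⟨⟨L.1 ⊓ 𝓟 s, hs, inferInstance, inf_le_left.trans L.2.2.2⟩, inf_le_left, hs'⟩
  choose nxt hnxt1 hnxt2 using hstep
  let Ls : ℕ → G := fun n => Nat.rec ⟨atTop, inferInstance, inferInstance, le_rfl⟩
    (fun m L => nxt m L) n
  have hLs : ∀ n, Ls (n + 1) = nxt n (Ls n) := fun n => rfl
  have hanti : Antitone fun n => (Ls n).1 := antitone_nat_of_succ_le fun n => by
    rw [hLs]; exact hnxt1 n _
  refine ⟨⨅ n, (Ls n).1, ?_, ?_, ?_, ?_⟩
  · exact iInf_neBot_of_directed hanti.directed_ge fun n => (Ls n).2.1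
  · have : ∀ n, ((Ls n).1).IsCountablyGenerated := fun n => (Ls n).2.2.1
    infer_instance
  · exact (iInf_le (fun n => (Ls n).1) 0).trans (Ls 0).2.2.2
  · intro j φ ψ hφ hψ
    refine le_of_forall_pos_le_add fun ε hε => ?_
    obtain ⟨k, hk⟩ := exists_nat_one_div_lt hε
    have h1 := hnxt2 (Nat.pair j k) (Ls (Nat.pair j k)) (⨅ n, (Ls n).1)
      (by rw [← hLs]; exact iInf_le (fun n => (Ls n).1) (Nat.pair j k + 1)) φ ψ hφ hψ
    rw [Nat.unpair_pair] at h1
    linarith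


/-- There is a subsequence of a bounded sequence of functionals such that the distance from any
element of its closed span to the cluster points is constant. -/
lemma exists_stable (f : ℕ → StrongDual ℝ E) {C : ℝ} (hf : ∀ k, ‖f k‖ ≤ C) :
    ∃ u : ℕ → ℕ, StrictMono u ∧ ∀ h ∈ Submodule.span ℝ (range (f ∘ u)),
      ∀ φ ψ : StrongDual ℝ E, Btw (f ∘ u) atTop φ → Btw (f ∘ u) atTop ψ → ‖h - ψ‖ = ‖h - φ‖ := by
  -- a countable dense subset of the span
  have hsep : TopologicalSpace.IsSeparable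
      (Submodule.span ℝ (range f) : Set (StrongDual ℝ E)) :=
    ((countable_range f).isSeparable).span
  obtain ⟨c, hc, hcd⟩ := hsep
  have hne : c.Nonempty := by
    rw [nonempty_iff_ne_empty]
    rintro rfl
    rw [closure_empty] at hcd
    exact hcd (Submodule.zero_mem _)
  obtain ⟨d, hd⟩ := hc.exists_eq_range hne
  obtain ⟨L, hL1, hL2, hL3, hL4⟩ := stabilize f hf d
  obtain ⟨v, hv⟩ := L.exists_seq_tendsto
  obtain ⟨w, hw, hvw⟩ := strictMono_subseq_of_tendsto_atTop (hv.mono_right hL3)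
  have hBtw : ∀ φ, Btw (f ∘ (v ∘ w)) atTop φ → Btw f L φ := by
    intro φ hφ x ε hε
    exact (hv.comp hw.tendsto_atTop).frequently (hφ x ε hε)
  refine ⟨v ∘ w, hvw, fun h hh φ ψ hφ hψ => ?_⟩
  have hh' : h ∈ Submodule.span ℝ (range f) :=
    Submodule.span_mono (range_comp_subset_range _ _) hh
  have key : ∀ φ ψ : StrongDual ℝ E, Btw (f ∘ (v ∘ w)) atTop φ → Btw (f ∘ (v ∘ w)) atTop ψ →
      ‖h - ψ‖ ≤ ‖h - φ‖ := by
    intro φ ψ hφ hψ
    refine le_of_forall_pos_le_add fun ε hε => ?_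
    obtain ⟨y, hy, hyh⟩ := Metric.mem_closure_iff.1 (hcd hh') (ε / 2) (by positivity)
    rw [hd] at hy
    obtain ⟨j, rfl⟩ := hy
    have h1 := hL4 j φ ψ (hBtw φ hφ) (hBtw ψ hψ)
    rw [dist_eq_norm] at hyh
    have h2 : ‖h - ψ‖ ≤ ‖h - d j‖ + ‖d j - ψ‖ := by
      have : h - ψ = (h - d j) + (d j - ψ) := by abel
      rw [this]; exact norm_add_le _ _
    have h3 : ‖d j - φ‖ ≤ ‖h - d j‖ + ‖h - φ‖ := by
      have : d j - φ = -(h - d j) + (h - φ) := by abel
      rw [this]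
      refine (norm_add_le _ _).trans ?_
      rw [norm_neg]
    linarith
  exact le_antisymm (key φ ψ hφ hψ) (key ψ φ hψ hφ)

/-- Pryce's convexity lemma -/
lemma convexity {V : Type*} [NormedAddCommGroup V] [NormedSpace ℝ V] {A : Set V} (hA : Convex ℝ A)
    (hAn : A.Nonempty) (u : V) {β β' ρ α : ℝ} (hβ : 0 < β) (hβ' : 0 < β')
    (hα : β * ρ + ‖u‖ < α) (h : ∀ a ∈ A, α ≤ ‖u + β • a‖) :
    ∃ a₀ ∈ A, ∃ α', β' * ρ + ‖u + β • a₀‖ < α' ∧ ∀ b ∈ A, α' ≤ ‖(u + β • a₀) + β' • b‖ := by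
  set T : Set ℝ := (fun a => ‖u + β • a‖) '' A with hT
  have hTn : T.Nonempty := hAn.image _
  have hTb : BddBelow T := ⟨α, by rintro t ⟨a, ha, rfl⟩; exact h a ha⟩
  set m := sInf T with hm
  have hαm : α ≤ m := le_csInf hTn (by rintro t ⟨a, ha, rfl⟩; exact h a ha)
  set η := m - ‖u‖ - β * ρ with hη
  have hηp : 0 < η := by rw [hη]; linarith
  obtain ⟨t, ⟨a₀, ha₀, rfl⟩, ht⟩ := exists_lt_of_csInf_lt hTn
    (show sInf T < m + (β' / β) * η / 2 by
      have : 0 < (β' / β) * η / 2 := by positivity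
      linarith)
  refine ⟨a₀, ha₀, m + (β' / β) * (m - ‖u‖), ?_, fun b hb => ?_⟩
  · have h1 : (β' / β) * (m - ‖u‖) = β' * ρ + (β' / β) * η := by
      rw [hη]; field_simp; ring
    rw [h1]
    have h2 : 0 < (β' / β) * η := by positivity
    have h3 : ‖u + β • a₀‖ < m + (β' / β) * η / 2 := ht
    linarith
  · set c : V := (β / (β + β')) • a₀ + (β' / (β + β')) • b with hc
    have hcA : c ∈ A := hA ha₀ hb (by positivity) (by positivity) (by field_simp)
    have h1 : m ≤ ‖u + β • c‖ := csInf_le hTb ⟨c, hcA, rfl⟩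
    have h2 : (u + β • a₀) + β' • b = ((β + β') / β) • (u + β • c) - (β' / β) • u := by
      rw [hc]
      simp only [smul_add, smul_smul]
      have e1 : (β + β') / β * (β * (β / (β + β'))) = β := by field_simp
      have e2 : (β + β') / β * (β * (β' / (β + β'))) = β' := by field_simp
      rw [e1, e2]
      have e3 : ((β + β') / β) • u = u + (β' / β) • u := by
        have : (β + β') / β = 1 + β' / β := by field_simp
        rw [this, add_smul, one_smul]
      rw [e3]; abel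
    rw [h2]
    have h3 := norm_sub_norm_le (((β + β') / β) • (u + β • c)) ((β' / β) • u)
    rw [norm_smul, norm_smul, Real.norm_of_nonneg (by positivity), Real.norm_of_nonneg (by positivity)] at h3
    have h4 : ((β + β') / β) * m ≤ ((β + β') / β) * ‖u + β • c‖ :=
      mul_le_mul_of_nonneg_left h1 (by positivity)
    have h5 : ((β + β') / β) * m = m + (β' / β) * m := by field_simp
    have h6 : (β' / β) * (m - ‖u‖) = (β' / β) * m - (β' / β) * ‖u‖ := by ring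
    linarith


/-- **Pryce**: if every functional attains its norm on the closed unit ball, then every bounded
sequence of functionals has a pointwise convergent subsequence. -/
theorem exists_convergent_subseq (hE : ∀ g : StrongDual ℝ E, ∃ x, ‖x‖ ≤ 1 ∧ g x = ‖g‖)
    (f : ℕ → StrongDual ℝ E) {C : ℝ} (hf : ∀ k, ‖f k‖ ≤ C) :
    ∃ u : ℕ → ℕ, StrictMono u ∧ ∃ φ : StrongDual ℝ E,
      ∀ x, Tendsto (fun k => f (u k) x) atTop (𝓝 (φ x)) := by
  obtain ⟨u, hu, hstab⟩ := exists_stable f hf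
  refine ⟨u, hu, ?_⟩
  set F : ℕ → StrongDual ℝ E := f ∘ u with hFdef
  have hF : ∀ k, ‖F k‖ ≤ C := fun k => hf _
  have hC : 0 ≤ C := (norm_nonneg _).trans (hf 0)
  obtain ⟨φ₀, hφ₀⟩ := exists_Btw F hF atTop
  by_contra hcon
  push Not at hcon
  obtain ⟨x₁, hx₁⟩ := hcon φ₀
  obtain ⟨ε, hε, hfr⟩ : ∃ ε : ℝ, 0 < ε ∧ ∃ᶠ k in atTop, ε ≤ |F k x₁ - φ₀ x₁| := by
    by_contra hno
    push Not at hno
    apply hx₁
    rw [Metric.tendsto_nhds]
    intro ε hε
    have h1 := hno ε hε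
    exact h1.mono fun k hk => by
      rw [Real.dist_eq]; exact hk
  obtain ⟨ψ, hψ, hψx⟩ : ∃ ψ, Btw F atTop ψ ∧ ε ≤ |ψ x₁ - φ₀ x₁| := by
    have hne : (atTop ⊓ 𝓟 {k | ε ≤ |F k x₁ - φ₀ x₁|} : Filter ℕ).NeBot :=
      frequently_mem_iff_neBot.1 hfr
    obtain ⟨ψ, -, hψ⟩ := exists_ultralimit F hF
      (Ultrafilter.of (atTop ⊓ 𝓟 {k | ε ≤ |F k x₁ - φ₀ x₁|} : Filter ℕ))
    have hle := Ultrafilter.of_le (atTop ⊓ 𝓟 {k | ε ≤ |F k x₁ - φ₀ x₁|} : Filter ℕ)
    refine ⟨ψ, Btw_of_ultralimit _ (hle.trans inf_le_left) hψ, ?_⟩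
    have h1 : Tendsto (fun k => |F k x₁ - φ₀ x₁|)
        (Ultrafilter.of (atTop ⊓ 𝓟 {k | ε ≤ |F k x₁ - φ₀ x₁|} : Filter ℕ))
        (𝓝 |ψ x₁ - φ₀ x₁|) := ((hψ x₁).sub_const _).abs
    refine ge_of_tendsto h1 ?_
    exact hle (mem_inf_of_right (mem_principal_self _))
  have hne : φ₀ ≠ ψ := by
    rintro rfl
    rw [sub_self, abs_zero] at hψx
    linarith
  set r : ℝ := ‖φ₀ - ψ‖ / 2 with hr
  have hrp : 0 < r := by
    have : 0 < ‖φ₀ - ψ‖ := norm_pos_iff.2 (sub_ne_zero.2 hne)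
    positivity
  have hfar : ∀ h ∈ Submodule.span ℝ (range F), r ≤ ‖h - φ₀‖ := by
    intro h hh
    have h1 := hstab h hh φ₀ ψ hφ₀ hψ
    have h2 : ‖φ₀ - ψ‖ ≤ ‖h - φ₀‖ + ‖h - ψ‖ := by
      have : φ₀ - ψ = (h - ψ) - (h - φ₀) := by abel
      rw [this]
      exact (norm_sub_le _ _).trans (by linarith)
    rw [hr]; linarith
  set ρ : ℝ := r / 2 with hρ
  have hρp : 0 < ρ := by positivity
  set K : ℝ := 2 * C + 1 with hK
  have hKp : 0 < K := by positivity
  obtain ⟨δ, hδ0, hδ1, hδ2⟩ : ∃ δ : ℝ, 0 < δ ∧ δ < 1 ∧ 2 * (K * δ / (1 - δ)) ≤ ρ / 2 := by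
    refine ⟨min (1 / 2) (ρ / (8 * K)), by positivity, (min_le_left _ _).trans_lt (by norm_num), ?_⟩
    set δ := min (1 / 2) (ρ / (8 * K)) with hδ
    have h1 : δ ≤ 1 / 2 := min_le_left _ _
    have h2 : δ ≤ ρ / (8 * K) := min_le_right _ _
    have h3 : 0 < 1 - δ := by linarith
    have h0 : 0 < δ := by positivity
    rw [le_div_iff₀ (by positivity)] at h2
    have h4 : K * δ / (1 - δ) ≤ 2 * (K * δ) := by
      rw [div_le_iff₀ h3]
      have : 0 ≤ K * δ := by positivity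
      nlinarith
    nlinarith
  -- the convex sets
  let A : ℕ → Set (StrongDual ℝ E) := fun n => convexHull ℝ (F '' Ici n)
  have hAne : ∀ n, (A n).Nonempty := fun n => ⟨F n, subset_convexHull ℝ _ ⟨n, mem_Ici.2 le_rfl, rfl⟩⟩
  have hAanti : ∀ n, A (n + 1) ⊆ A n := fun n =>
    convexHull_mono (image_mono (Ici_subset_Ici.2 (Nat.le_succ n)))
  have hAspan : ∀ n, A n ⊆ (Submodule.span ℝ (range F) : Set (StrongDual ℝ E)) := by
    intro n
    refine convexHull_min ?_ (Submodule.convex _)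
    rintro _ ⟨k, -, rfl⟩
    exact Submodule.subset_span ⟨k, rfl⟩
  have hAball : ∀ n, ∀ g ∈ A n, ‖g‖ ≤ C := by
    intro n g hg
    have h1 : A n ⊆ Metric.closedBall 0 C := by
      refine convexHull_min ?_ (convex_closedBall _ _)
      rintro _ ⟨k, -, rfl⟩
      rw [mem_closedBall_zero_iff]
      exact hF k
    have := h1 hg
    rwa [mem_closedBall_zero_iff] at this
  let B : ℕ → Set (StrongDual ℝ E) := fun n => (fun a => a - φ₀) '' A n
  have hBconv : ∀ n, Convex ℝ (B n) := by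
    rintro n _ ⟨a, ha, rfl⟩ _ ⟨b, hb, rfl⟩ s t hs ht hst
    refine ⟨s • a + t • b, convex_convexHull ℝ (F '' Ici n) ha hb hs ht hst, ?_⟩
    show s • a + t • b - φ₀ = s • (a - φ₀) + t • (b - φ₀)
    have : φ₀ = s • φ₀ + t • φ₀ := by rw [← add_smul, hst, one_smul]
    rw [smul_sub, smul_sub]
    nth_rewrite 1 [this]
    abel
  let P : ℕ → StrongDual ℝ E → Prop := fun n v =>
    ∃ α : ℝ, δ ^ n * ρ + ‖v‖ < α ∧ ∀ b ∈ B n, α ≤ ‖v + δ ^ n • b‖
  have hP0 : P 0 0 := by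
    refine ⟨r, ?_, ?_⟩
    · rw [pow_zero, norm_zero, hρ]; linarith
    · rintro _ ⟨h, hh, rfl⟩
      rw [pow_zero, one_smul, zero_add]
      exact hfar h (hAspan 0 hh)
  have hstep : ∀ (n : ℕ) (s : {v // P n v}), ∃ g ∈ A n, P (n + 1) (s.1 + δ ^ n • (g - φ₀)) := by
    rintro n ⟨v, α, hα1, hα2⟩
    obtain ⟨b₀, ⟨g, hg, rfl⟩, α', h1, h2⟩ := convexity (hBconv n) ((hAne n).image _) v
      (β := δ ^ n) (β' := δ ^ (n + 1)) (ρ := ρ) (α := α) (by positivity) (by positivity) hα1 hα2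
    refine ⟨g, hg, α', h1, fun b hb => h2 b ?_⟩
    obtain ⟨a, ha, rfl⟩ := hb
    exact ⟨a, hAanti n ha, rfl⟩
  choose G hGA hGP using hstep
  let S : (n : ℕ) → {v // P n v} := fun n => Nat.rec ⟨0, hP0⟩ (fun n s => ⟨_, hGP n s⟩) n
  let g : ℕ → StrongDual ℝ E := fun n => G n (S n)
  have hgA : ∀ n, g n ∈ A n := fun n => hGA n (S n)
  have hS : ∀ n, (S (n + 1)).1 = (S n).1 + δ ^ n • (g n - φ₀) := fun n => rfl
  have hSsum : ∀ n, (S n).1 = (∑ i ∈ Finset.range n, δ ^ i • g i) -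
      (∑ i ∈ Finset.range n, δ ^ i) • φ₀ := by
    intro n
    induction n with
    | zero =>
      have : (S 0).1 = 0 := rfl
      rw [this]; simp
    | succ n ih =>
      rw [hS, ih, Finset.sum_range_succ, Finset.sum_range_succ, add_smul, smul_sub]
      abel
  have hSgrow : ∀ n, δ ^ n * ρ + ‖(S n).1‖ ≤ ‖(S (n + 1)).1‖ := by
    intro n
    obtain ⟨α, h1, h2⟩ := (S n).2
    have h3 := h2 (g n - φ₀) ⟨g n, hgA n, rfl⟩
    rw [hS]
    linarith
  -- the cluster point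
  obtain ⟨φ', hφ'C, hφ'⟩ := exists_ultralimit g (fun n => hAball n _ (hgA n)) (hyperfilter ℕ)
  have hUle : ((hyperfilter ℕ : Ultrafilter ℕ) : Filter ℕ) ≤ atTop := by
    rw [← Nat.cofinite_eq_atTop]
    exact hyperfilter_le_cofinite
  have hBtw' : Btw F atTop φ' := by
    intro x ε hε
    rw [frequently_atTop]
    intro N
    by_contra hno
    push Not at hno
    have h1 : ∀ᶠ n in ((hyperfilter ℕ : Ultrafilter ℕ) : Filter ℕ), φ' x - ε < g n x :=
      (hφ' x).eventually (lt_mem_nhds (by linarith))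
    have h2 : ∀ᶠ n in ((hyperfilter ℕ : Ultrafilter ℕ) : Filter ℕ), N ≤ n :=
      hUle (eventually_ge_atTop N)
    obtain ⟨n, hn1, hn2⟩ := (h1.and h2).exists
    have h3 : A n ⊆ {h : StrongDual ℝ E | h x ≤ φ' x - ε} := by
      refine convexHull_min ?_ ?_
      · rintro _ ⟨k, hk, rfl⟩
        have := hno k (hn2.trans hk)
        show F k x ≤ φ' x - ε
        linarith
      · intro a ha b hb s t hs ht hst
        have ha' : a x ≤ φ' x - ε := ha
        have hb' : b x ≤ φ' x - ε := hb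
        show (s • a + t • b) x ≤ φ' x - ε
        rw [add_apply, smul_apply, smul_apply, smul_eq_mul, smul_eq_mul]
        calc s * a x + t * b x ≤ s * (φ' x - ε) + t * (φ' x - ε) :=
              add_le_add (mul_le_mul_of_nonneg_left ha' hs) (mul_le_mul_of_nonneg_left hb' ht)
          _ = φ' x - ε := by rw [← add_mul, hst, one_mul]
    have h4 : g n x ≤ φ' x - ε := h3 (hgA n)
    linarith
  -- the functional
  let z : ℕ → StrongDual ℝ E := fun i => δ ^ i • (g i - φ')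
  have hz : ∀ i, ‖z i‖ ≤ K * δ ^ i := by
    intro i
    show ‖δ ^ i • (g i - φ')‖ ≤ _
    rw [norm_smul, Real.norm_of_nonneg (by positivity), mul_comm]
    apply mul_le_mul_of_nonneg_right _ (by positivity)
    have h1 := hAball i _ (hgA i)
    refine (norm_sub_le _ _).trans ?_
    rw [hK]; linarith
  have hzs : Summable z := Summable.of_norm_bounded
    ((summable_geometric_of_lt_one hδ0.le hδ1).mul_left K) hz
  obtain ⟨x₀, hx₀, hx₀'⟩ := hE (∑' i, z i)
  set Gi := ∑' i, z i with hGi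
  have hV : ∀ n, ‖∑ i ∈ Finset.range n, z i‖ = ‖(S n).1‖ := by
    intro n
    have h1 : ∑ i ∈ Finset.range n, z i = (∑ i ∈ Finset.range n, δ ^ i • g i) -
        (∑ i ∈ Finset.range n, δ ^ i) • φ' := by
      simp only [z, smul_sub]
      rw [Finset.sum_sub_distrib, Finset.sum_smul]
    rw [h1, hSsum]
    set σ := ∑ i ∈ Finset.range n, δ ^ i with hσ
    rcases Nat.eq_zero_or_pos n with h0 | h0
    · have : σ = 0 := by rw [hσ, h0]; simp
      rw [this]; simp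
    · have hσp : 0 < σ := by
        rw [hσ]
        exact Finset.sum_pos (fun i _ => by positivity) ⟨0, Finset.mem_range.2 h0⟩
      set h := ∑ i ∈ Finset.range n, δ ^ i • g i with hh
      have hmem : σ⁻¹ • h ∈ Submodule.span ℝ (range F) := by
        refine Submodule.smul_mem _ _ (Submodule.sum_mem _ fun i _ => Submodule.smul_mem _ _ ?_)
        exact hAspan i (hgA i)
      have h2 := hstab _ hmem φ₀ φ' hφ₀ hBtw'
      have h3 : ∀ φ : StrongDual ℝ E, h - σ • φ = σ • (σ⁻¹ • h - φ) := by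
        intro φ
        rw [smul_sub, smul_smul, mul_inv_cancel₀ hσp.ne', one_smul]
      rw [h3, h3, norm_smul, norm_smul, h2]
  have htail : ∀ n, ‖(∑ i ∈ Finset.range n, z i) - Gi‖ ≤ K * δ ^ n / (1 - δ) := fun n =>
    norm_sub_le_of_geometric_bound_of_hasSum hδ1 hz hzs.hasSum n
  have hlow : ∀ n, ρ / 2 ≤ (g n - φ') x₀ := by
    intro n
    have h1 := htail (n + 1)
    set T := K * δ ^ (n + 1) / (1 - δ) with hT
    have h2 : (∑ i ∈ Finset.range (n + 1), z i) x₀ = (∑ i ∈ Finset.range n, z i) x₀ +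
        δ ^ n * (g n - φ') x₀ := by
      rw [Finset.sum_range_succ, add_apply]
      rfl
    have h3 : (∑ i ∈ Finset.range n, z i) x₀ ≤ ‖∑ i ∈ Finset.range n, z i‖ := apply_le_norm _ hx₀
    have h4 : Gi x₀ - (∑ i ∈ Finset.range (n + 1), z i) x₀ ≤ T := by
      have h5 := apply_le_norm (Gi - ∑ i ∈ Finset.range (n + 1), z i) hx₀
      rw [sub_apply] at h5
      rw [norm_sub_rev] at h1
      linarith
    have h6 : ‖∑ i ∈ Finset.range (n + 1), z i‖ ≤ ‖Gi‖ + T := by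
      have : ∑ i ∈ Finset.range (n + 1), z i = Gi + ((∑ i ∈ Finset.range (n + 1), z i) - Gi) := by
        abel
      rw [this]
      exact (norm_add_le _ _).trans (add_le_add le_rfl h1)
    have h7 := hSgrow n
    rw [← hV, ← hV] at h7
    have h8 : T = δ ^ n * (K * δ / (1 - δ)) := by rw [hT, pow_succ]; ring
    have hδn : 0 < δ ^ n := by positivity
    have h9 : δ ^ n * (ρ - 2 * (K * δ / (1 - δ))) ≤ δ ^ n * (g n - φ') x₀ := by
      have : δ ^ n * (ρ - 2 * (K * δ / (1 - δ))) = δ ^ n * ρ - 2 * T := by rw [h8]; ring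
      rw [this]
      linarith
    have h10 := le_of_mul_le_mul_left h9 hδn
    linarith
  have hlim : Tendsto (fun n => (g n - φ') x₀) ((hyperfilter ℕ : Ultrafilter ℕ) : Filter ℕ) (𝓝 0) := by
    have h1 := (hφ' x₀).sub_const (φ' x₀)
    rw [sub_self] at h1
    exact h1
  have h11 : ρ / 2 ≤ 0 := ge_of_tendsto hlim (Eventually.of_forall hlow)
  linarith

end Pool.Agent.H548R3.Pryce
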