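import Pool.Agent.H548R3.PDefs

/-!
A Banach space as a `p`-Banach space: the group norm is replaced by its `p`-th power.
-/

set_option autoImplicit false
set_option linter.unusedSectionVars false

open Set Filter Topology

namespace Pool.Agent.H548R3.PFree

/-- a copy of `E`, to be normed by the `p`-th power of the norm of `E` -/
def Snow (_ : ℝ) (E : Type) : Type := E

section

variable (p : ℝ) [hp : Fact (0 < p ∧ p ≤ 1)] (E : Type) [NormedAddCommGroup E] [NormedSpace ℝ E]

instance : AddCommGroup (Snow p E) := inferInstanceAs (AddCommGroup E)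

instance : Module ℝ (Snow p E) := inferInstanceAs (Module ℝ E)

noncomputable def snowNorm : AddGroupNorm (Snow p E) where
  toFun x := ‖(show E from x)‖ ^ p
  map_zero' := by
    show ‖(0 : E)‖ ^ p = 0
    rw [norm_zero, Real.zero_rpow hp.out.1.ne']
  add_le' x y := by
    show ‖(show E from x) + (show E from y)‖ ^ p ≤ _
    exact (Real.rpow_le_rpow (norm_nonneg _) (norm_add_le _ _) hp.out.1.le).trans
      (Real.rpow_add_le_add_rpow (norm_nonneg _) (norm_nonneg _) hp.out.1.le hp.out.2)
  neg' x := by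
    show ‖-(show E from x)‖ ^ p = _
    rw [norm_neg]
  eq_zero_of_map_eq_zero' x hx := by
    have h1 : ‖(show E from x)‖ ^ p = 0 := hx
    rw [Real.rpow_eq_zero (norm_nonneg _) hp.out.1.ne', norm_eq_zero] at h1
    exact h1

noncomputable instance : NormedAddCommGroup (Snow p E) := (snowNorm p E).toNormedAddCommGroup

variable {p E}

/-- the identity map -/
def toSnow (x : E) : Snow p E := x

/-- the identity map -/
def ofSnow (x : Snow p E) : E := x

lemma norm_snow (x : Snow p E) : ‖x‖ = ‖(ofSnow x : E)‖ ^ p := rfl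

lemma norm_ofSnow (x : Snow p E) : ‖(ofSnow x : E)‖ = ‖x‖ ^ (1 / p) := by
  rw [norm_snow, ← Real.rpow_mul (norm_nonneg _), mul_one_div_cancel hp.out.1.ne', Real.rpow_one]

lemma pnorm_snow (x : Snow p E) : pnorm p x = ‖(ofSnow x : E)‖ := (norm_ofSnow x).symm

variable (p E)

lemma continuous_ofSnow : Continuous (ofSnow : Snow p E → E) := by
  rw [continuous_iff_continuousAt]
  intro x
  rw [ContinuousAt, tendsto_iff_norm_sub_tendsto_zero]
  have h1 : Tendsto (fun y : Snow p E => ‖y - x‖ ^ (1 / p)) (𝓝 x) (𝓝 (‖x - x‖ ^ (1 / p))) := by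
    have hcont : Continuous fun y : Snow p E => ‖y - x‖ ^ (1 / p) :=
      Continuous.rpow_const (by fun_prop) fun _ => Or.inr (one_div_pos.2 hp.out.1).le
    exact hcont.tendsto x
  rw [sub_self, norm_zero, Real.zero_rpow (one_div_pos.2 hp.out.1).ne'] at h1
  refine h1.congr fun y => ?_
  exact (norm_ofSnow (y - x)).symm

/-- the identity as a continuous linear map -/
noncomputable def snowCLM : Snow p E →L[ℝ] E :=
  ⟨{ toFun := ofSnow
     map_add' := fun _ _ => rfl
     map_smul' := fun _ _ => rfl }, continuous_ofSnow p E⟩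

lemma isPBanach_snow [CompleteSpace E] : IsPBanach p (Snow p E) := by
  refine ⟨fun a z => ?_, ?_⟩
  · show ‖a • (ofSnow z : E)‖ ^ p = |a| ^ p * ‖(ofSnow z : E)‖ ^ p
    rw [norm_smul, Real.norm_eq_abs, Real.mul_rpow (abs_nonneg _) (norm_nonneg _)]
  · refine Metric.complete_of_cauchySeq_tendsto fun u hu => ?_
    have h1 : CauchySeq fun n => (ofSnow (u n) : E) := by
      rw [Metric.cauchySeq_iff] at hu ⊢
      intro ε hε
      obtain ⟨N, hN⟩ := hu (ε ^ p) (Real.rpow_pos_of_pos hε _)
      refine ⟨N, fun m hm n hn => ?_⟩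
      have h2 := hN m hm n hn
      rw [dist_eq_norm] at h2 ⊢
      have h3 : ‖(ofSnow (u m) : E) - ofSnow (u n)‖ ^ p < ε ^ p := h2
      exact (Real.rpow_lt_rpow_iff (norm_nonneg _) hε.le hp.out.1).1 h3
    obtain ⟨x, hx⟩ := cauchySeq_tendsto_of_complete h1
    refine ⟨toSnow x, ?_⟩
    rw [tendsto_iff_norm_sub_tendsto_zero] at hx ⊢
    have h4 := hx.rpow_const (p := p) (Or.inr hp.out.1.le)
    rw [Real.zero_rpow hp.out.1.ne'] at h4
    exact h4

end

end Pool.Agent.H548R3.PFree
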